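import Mathlib

open MeasureTheory ProbabilityTheory Filter Topology
open scoped ENNReal Real

namespace Pool.Agent.Lib.MP_002529_pr

/-- Bound of a holomorphic function on the half disc by its mean on the circle. -/
lemma cauchy_bound {f : ℂ → ℂ} {z₀ : ℂ} {r r' : ℝ} (hr : 0 < r) (hr' : r < r')
    (hf : DifferentiableOn ℂ f (Metric.ball z₀ r')) {w : ℂ} (hw : w ∈ Metric.ball z₀ (r / 2)) :
    ‖f w‖ ≤ π⁻¹ * ∫ θ in (0 : ℝ)..2 * π, ‖f (circleMap z₀ r θ)‖ := by
  have hcb : Metric.closedBall z₀ r ⊆ Metric.ball z₀ r' := Metric.closedBall_subset_ball hr'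
  have hwr : w ∈ Metric.ball z₀ r := Metric.ball_subset_ball (by linarith) hw
  have hc := (hf.mono hcb).circleIntegral_sub_inv_smul hwr
  have hmem : ∀ θ, circleMap z₀ r θ ∈ Metric.closedBall z₀ r := fun θ =>
    Metric.sphere_subset_closedBall (circleMap_mem_sphere z₀ hr.le θ)
  have hcont : Continuous fun θ => f (circleMap z₀ r θ) :=
    hf.continuousOn.comp_continuous (continuous_circleMap z₀ r) fun θ => hcb (hmem θ)
  have hdist : ∀ θ, r / 2 ≤ ‖circleMap z₀ r θ - w‖ := fun θ => by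
    have h1 : ‖circleMap z₀ r θ - z₀‖ = r := by
      have := circleMap_mem_sphere z₀ hr.le θ
      rwa [mem_sphere_iff_norm] at this
    have h2 : ‖w - z₀‖ < r / 2 := by rwa [mem_ball_iff_norm] at hw
    have h3 : ‖circleMap z₀ r θ - z₀‖ ≤ ‖circleMap z₀ r θ - w‖ + ‖w - z₀‖ := by
      have := norm_add_le (circleMap z₀ r θ - w) (w - z₀)
      simpa using this
    linarith
  have hb : ‖∮ z in C(z₀, r), (z - w)⁻¹ • f z‖ ≤
      ∫ θ in (0 : ℝ)..2 * π, 2 * ‖f (circleMap z₀ r θ)‖ := by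
    refine (intervalIntegral.norm_integral_le_integral_norm (by positivity)).trans ?_
    refine intervalIntegral.integral_mono_on (by positivity) ?_ ?_ fun θ _ => ?_
    · apply Continuous.intervalIntegrable
      have c1 : Continuous fun θ : ℝ => deriv (circleMap z₀ r) θ := by
        simp only [deriv_circleMap]; fun_prop
      have c2 : Continuous fun θ : ℝ => (circleMap z₀ r θ - w)⁻¹ := by
        refine Continuous.inv₀ (by fun_prop) fun θ h => ?_
        have := hdist θ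
        rw [h, norm_zero] at this
        linarith
      exact (c1.smul (c2.smul hcont)).norm
    · exact (hcont.norm.const_mul 2).intervalIntegrable _ _
    · rw [norm_smul, norm_smul, norm_inv, deriv_circleMap]
      have h1 : ‖circleMap 0 r θ * Complex.I‖ = r := by
        simp [abs_of_pos hr]
      rw [h1, ← mul_assoc]
      refine mul_le_mul_of_nonneg_right ?_ (norm_nonneg _)
      rw [← div_eq_mul_inv, div_le_iff₀ (by have := hdist θ; linarith)]
      have := hdist θ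
      linarith
  rw [hc, norm_smul, intervalIntegral.integral_const_mul] at hb
  have h2 : ‖(2 * π * Complex.I : ℂ)‖ = 2 * π := by
    simp [abs_of_pos Real.pi_pos]
  rw [h2] at hb
  have hpi := Real.pi_pos
  rw [inv_mul_eq_div, le_div_iff₀ hpi]
  nlinarith

variable {Ω : Type*} [MeasurableSpace Ω] {P : Measure Ω} [IsProbabilityMeasure P]

theorem ae_summable {f : ℕ → Ω → ℂ → ℂ} {z₀ : ℂ} {r r' C ρ : ℝ} (hr : 0 < r) (hr' : r < r')
    (hρ0 : 0 ≤ ρ) (hρ1 : ρ < 1)
    (hd : ∀ n ω, DifferentiableOn ℂ (f n ω) (Metric.ball z₀ r'))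
    (hm : ∀ n, ∀ z ∈ Metric.ball z₀ r', Measurable fun ω => f n ω z)
    (hb : ∀ n, ∀ z ∈ Metric.ball z₀ r', ∫⁻ ω, ‖f n ω z‖ₑ ∂P ≤ ENNReal.ofReal (C * ρ ^ n)) :
    ∀ᵐ ω ∂P, ∃ M : ℕ → ℝ, Summable M ∧
      ∀ n, ∀ w ∈ Metric.ball z₀ (r / 2), ‖f n ω w‖ ≤ M n := by
  have hcb : Metric.closedBall z₀ r ⊆ Metric.ball z₀ r' := Metric.closedBall_subset_ball hr'
  have hmem : ∀ θ, circleMap z₀ r θ ∈ Metric.ball z₀ r' := fun θ =>
    hcb (Metric.sphere_subset_closedBall (circleMap_mem_sphere z₀ hr.le θ))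
  have hcont : ∀ n ω, Continuous fun θ => f n ω (circleMap z₀ r θ) := fun n ω =>
    (hd n ω).continuousOn.comp_continuous (continuous_circleMap z₀ r) hmem
  have hmeas : ∀ n, Measurable (Function.uncurry fun (θ : ℝ) (ω : Ω) =>
      f n ω (circleMap z₀ r θ)) := fun n =>
    measurable_uncurry_of_continuous_of_measurable (fun ω => hcont n ω)
      fun θ => hm n _ (hmem θ)
  set L : ℕ → Ω → ℝ≥0∞ := fun n ω =>
    ∫⁻ θ in Set.Ioc 0 (2 * π), ‖f n ω (circleMap z₀ r θ)‖ₑ with hL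
  have hLm : ∀ n, Measurable (L n) := fun n =>
    ((hmeas n).enorm.comp measurable_swap).lintegral_prod_right'
  have hLi : ∀ n, ∫⁻ ω, L n ω ∂P ≤ ENNReal.ofReal (C * ρ ^ n) * ENNReal.ofReal (2 * π) := by
    intro n
    rw [hL]
    simp only
    have hae : AEMeasurable (Function.uncurry fun (ω : Ω) (θ : ℝ) =>
        ‖f n ω (circleMap z₀ r θ)‖ₑ) (P.prod (volume.restrict (Set.Ioc 0 (2 * π)))) :=
      ((hmeas n).enorm.comp measurable_swap).aemeasurable
    rw [lintegral_lintegral_swap hae]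
    calc ∫⁻ θ in Set.Ioc 0 (2 * π), ∫⁻ ω, ‖f n ω (circleMap z₀ r θ)‖ₑ ∂P
        ≤ ∫⁻ _θ in Set.Ioc 0 (2 * π), ENNReal.ofReal (C * ρ ^ n) :=
          lintegral_mono fun θ => hb n _ (hmem θ)
      _ = _ := by simp
  have hsum : ∑' n, ∫⁻ ω, L n ω ∂P ≠ ⊤ := by
    have hC : ∀ n, ENNReal.ofReal (C * ρ ^ n) ≤ ENNReal.ofReal (|C| * ρ ^ n) := fun n =>
      ENNReal.ofReal_le_ofReal (mul_le_mul_of_nonneg_right (le_abs_self C) (by positivity))
    refine ne_top_of_le_ne_top ?_ (ENNReal.tsum_le_tsum fun n => (hLi n).trans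
      (mul_le_mul_left (hC n) _))
    rw [ENNReal.tsum_mul_right]
    refine ENNReal.mul_ne_top ?_ ENNReal.ofReal_ne_top
    have hs : Summable fun n : ℕ => |C| * ρ ^ n :=
      (summable_geometric_of_lt_one hρ0 hρ1).mul_left _
    rw [← ENNReal.ofReal_tsum_of_nonneg (fun n => by positivity) hs]
    exact ENNReal.ofReal_ne_top
  rw [← lintegral_tsum fun n => (hLm n).aemeasurable] at hsum
  have hae := ae_lt_top (Measurable.tsum hLm) hsum
  filter_upwards [hae] with ω hω
  have hs : Summable fun n => (L n ω).toReal := ENNReal.summable_toReal hω.ne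
  refine ⟨fun n => π⁻¹ * (L n ω).toReal, hs.mul_left _, fun n w hw => ?_⟩
  refine (cauchy_bound hr hr' (hd n ω) hw).trans (le_of_eq ?_)
  congr 1
  rw [intervalIntegral.integral_of_le (by positivity), hL]
  simp only
  rw [integral_norm_eq_lintegral_enorm (hcont n ω).aestronglyMeasurable]

end Pool.Agent.Lib.MP_002529_pr
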