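import Mathlib

open MeasureTheory ProbabilityTheory
open scoped unitInterval

namespace Pool.Agent.Lib.MP_002529_pr

/-- Nodes of the Ulam–Harris tree are lists; the root is `[]` and `i :: v` is the `i`-th child of
`v`. A tree is given by the numbers `c v` of children of the nodes: its nodes are the root and the
`i :: v` with `v` a node and `i < c v`. For a configuration `ω` (`ω v = true` when the edge
between `v` and its parent is open), `InCluster c ω v` says that `v` is a node of the tree of `c`
joined to the root by open edges. -/
def InCluster (c : List ℕ → ℕ) (ω : List ℕ → Bool) : List ℕ → Prop
  | [] => True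
  | i :: v => InCluster c ω v ∧ i < c v ∧ ω (i :: v) = true

/-- Bernoulli(`p`) percolation: the edges are open with probability `p`, independently. -/
noncomputable def perc (p : I) : Measure (List ℕ → Bool) :=
  Measure.infinitePi (fun _ : List ℕ => bernoulliMeasure true false p)

/-- The quenched survival function `g(T, p)` of the tree `T` given by `c`: the probability that the
open cluster of the root is infinite. -/
noncomputable def surv (c : List ℕ → ℕ) (p : I) : ℝ :=
  (perc p).real {ω | {v | InCluster c ω v}.Infinite}

/-- The law of the Galton–Watson tree with offspring law `μ`: the numbers of children are i.i.d.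
with law `μ`. -/
noncomputable def gw (μ : Measure ℕ) [IsProbabilityMeasure μ] : Measure (List ℕ → ℕ) :=
  Measure.infinitePi (fun _ : List ℕ => μ)

instance (μ : Measure ℕ) [IsProbabilityMeasure μ] : IsProbabilityMeasure (gw μ) := by
  unfold gw; infer_instance

instance (p : I) : IsProbabilityMeasure (perc p) := by unfold perc; infer_instance

end Pool.Agent.Lib.MP_002529_pr
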