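import Mathlib
import Pool.Agent.Lib.MP_ba6fcf_pr.Iid
import Pool.Agent.Lib.MP_002529_pr.Defs

open MeasureTheory ProbabilityTheory
open Pool.Agent.Lib.MP_ba6fcf_pr

namespace Pool.Agent.Lib.MP_002529_pr

section split

variable {α : Type*} [MeasurableSpace α]

/-- The labels of the subtree of the `i`-th child of the root. -/
def sub (c : List ℕ → α) (i : ℕ) : List ℕ → α := fun v => c (v ++ [i])

lemma measurable_sub : Measurable (fun c : List ℕ → α => sub c) := by
  unfold sub; fun_prop

lemma split_inj : Function.Injective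
    (Sum.elim (fun _ : Unit => ([] : List ℕ)) (fun q : ℕ × List ℕ => q.2 ++ [q.1])) := by
  rintro (a | a) (b | b) h
  · rfl
  · simp at h
  · simp at h
  · obtain ⟨a1, a2⟩ := a
    obtain ⟨b1, b2⟩ := b
    simp only [Sum.elim_inr] at h
    obtain ⟨h1, h2⟩ := List.append_inj' h rfl
    simp only [List.cons.injEq, and_true] at h2
    rw [h1, h2]

theorem root_split (ν : Measure α) [IsProbabilityMeasure ν] :
    MeasurePreserving (fun c : List ℕ → α => (c [], sub c)) (iid ν (List ℕ))
      (ν.prod (Measure.infinitePi (fun _ : ℕ => iid ν (List ℕ)))) := by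
  have h1 := pair ν (fun _ : Unit => ([] : List ℕ)) (fun q : ℕ × List ℕ => q.2 ++ [q.1]) split_inj
  have h2 : MeasurePreserving (fun x : Unit → α => x ()) (iid ν Unit) ν :=
    measurePreserving_eval_infinitePi (fun _ : Unit => ν) ()
  have h3 : MeasurePreserving (MeasurableEquiv.curry ℕ (List ℕ) α) (iid ν (ℕ × List ℕ))
      (Measure.infinitePi (fun _ : ℕ => iid ν (List ℕ))) :=
    ⟨(MeasurableEquiv.curry ℕ (List ℕ) α).measurable,
      Measure.infinitePi_map_curry (fun (_ : ℕ) (_ : List ℕ) => ν)⟩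
  have := (h2.prod h3).comp h1
  exact this

end split

section prod

variable {𝕜 : Type*} [RCLike 𝕜] {X : Type*} [MeasurableSpace X] (P : Measure X)
  [IsProbabilityMeasure P]

lemma fin_preserving (k : ℕ) :
    MeasurePreserving (fun (s : ℕ → X) (i : Fin k) => s i) (iid P ℕ)
      (Measure.pi (fun _ : Fin k => P)) := by
  have h := single P (fun i : Fin k => (i : ℕ)) Fin.val_injective
  have e : iid P (Fin k) = Measure.pi (fun _ : Fin k => P) := Measure.infinitePi_eq_pi _
  rwa [e] at h

lemma iid_integrable_prod (W : ℕ → X → 𝕜) (hW : ∀ i, Integrable (W i) P) (k : ℕ) :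
    Integrable (fun s : ℕ → X => ∏ i ∈ Finset.range k, W i (s i)) (iid P ℕ) := by
  have h := (fin_preserving P k).integrable_comp_of_integrable
    (Integrable.fintype_prod (f := fun (i : Fin k) => W i) fun i => hW i)
  refine h.congr (ae_of_all _ fun s => ?_)
  simp only [Function.comp_def, Finset.prod_range]

lemma iid_integral_prod (W : ℕ → X → 𝕜) (hW : ∀ i, AEStronglyMeasurable (W i) P) (k : ℕ) :
    ∫ s, ∏ i ∈ Finset.range k, W i (s i) ∂(iid P ℕ) = ∏ i ∈ Finset.range k, ∫ x, W i x ∂P := by
  have hm : AEStronglyMeasurable (fun x : Fin k → X => ∏ i : Fin k, W i (x i))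
      (Measure.pi (fun _ : Fin k => P)) :=
    Finset.aestronglyMeasurable_fun_prod Finset.univ fun i _ =>
    (hW i).comp_quasiMeasurePreserving (Measure.quasiMeasurePreserving_eval _ i)
  have h := integral_fintype_prod_eq_prod (𝕜 := 𝕜) (μ := fun _ : Fin k => P) (fun i : Fin k => W i)
  rw [← (fin_preserving P k).map_eq, integral_map (fin_preserving P k).measurable.aemeasurable
    (by rw [(fin_preserving P k).map_eq]; exact hm)] at h
  rw [Finset.prod_range, ← h]
  simp only [Finset.prod_range]

end prod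

section gwprod

variable {𝕜 : Type*} [RCLike 𝕜] (μ : Measure ℕ) [IsProbabilityMeasure μ]

lemma measurable_prodNat {W : (List ℕ → ℕ) → 𝕜} (hW : Measurable W) :
    Measurable (fun q : ℕ × (ℕ → (List ℕ → ℕ)) => ∏ i ∈ Finset.range q.1, W (q.2 i)) := by
  refine measurable_from_prod_countable_right fun k => ?_
  simp only
  exact Finset.measurable_fun_prod _ fun i _ => hW.comp (measurable_pi_apply i)

theorem gw_prod {W : (List ℕ → ℕ) → 𝕜} (hWm : Measurable W) (hW : Integrable W (gw μ)) (a : ℝ)
    (ha : Integrable (fun k : ℕ => a ^ k) μ) (hle : ∫ c, ‖W c‖ ∂(gw μ) ≤ a) :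
    Integrable (fun c => ∏ i ∈ Finset.range (c []), W (sub c i)) (gw μ) ∧
    ∫ c, ∏ i ∈ Finset.range (c []), W (sub c i) ∂(gw μ) = ∫ k, (∫ c, W c ∂(gw μ)) ^ k ∂μ := by
  have hsp := root_split μ
  have hm := measurable_prodNat hWm
  have hint : Integrable (fun q : ℕ × (ℕ → (List ℕ → ℕ)) =>
      ∏ i ∈ Finset.range q.1, W (q.2 i)) (μ.prod (iid (gw μ) ℕ)) := by
    rw [integrable_prod_iff hm.aestronglyMeasurable]
    refine ⟨ae_of_all _ fun k => iid_integrable_prod (gw μ) (fun _ => W) (fun _ => hW) k, ?_⟩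
    refine ha.mono Measurable.of_discrete.aestronglyMeasurable (ae_of_all _ fun k => ?_)
    simp only [norm_prod]
    have h1 := iid_integral_prod (gw μ) (fun _ c => ‖W c‖)
      (fun _ => hWm.norm.aestronglyMeasurable) k
    rw [Finset.prod_const, Finset.card_range] at h1
    rw [h1]
    have h0 : 0 ≤ ∫ c, ‖W c‖ ∂(gw μ) := integral_nonneg fun _ => norm_nonneg _
    rw [norm_pow, norm_pow, Real.norm_of_nonneg h0]
    exact pow_le_pow_left₀ h0 (hle.trans (le_abs_self a)) k
  constructor
  · exact hsp.integrable_comp_of_integrable hint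
  · have e := integral_map (μ := gw μ) hsp.measurable.aemeasurable
      (f := fun q : ℕ × (ℕ → (List ℕ → ℕ)) => ∏ i ∈ Finset.range q.1, W (q.2 i))
      hm.aestronglyMeasurable
    refine e.symm.trans ?_
    have e2 : Measure.map (fun c : List ℕ → ℕ => (c [], sub c)) (gw μ) =
      μ.prod (iid (gw μ) ℕ) := hsp.map_eq
    rw [e2, integral_prod _ hint]
    refine integral_congr_ae (ae_of_all _ fun k => ?_)
    have h1 := iid_integral_prod (gw μ) (fun _ => W)
      (fun _ => hWm.aestronglyMeasurable) k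
    rw [Finset.prod_const, Finset.card_range] at h1
    exact h1

end gwprod

end Pool.Agent.Lib.MP_002529_pr
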