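import Mathlib
import Pool.Agent.Lib.MP_002529_pr.Split

open MeasureTheory ProbabilityTheory Filter Topology
open scoped unitInterval
open Pool.Agent.Lib.MP_ba6fcf_pr

namespace Pool.Agent.Lib.MP_002529_pr

/-! ### Combinatorics of the cluster -/

/-- Some node of level `n` is joined to the root. -/
def reach (c : List ℕ → ℕ) (ω : List ℕ → Bool) (n : ℕ) : Prop :=
  ∃ v : List ℕ, v.length = n ∧ InCluster c ω v

lemma inCluster_append (c : List ℕ → ℕ) (ω : List ℕ → Bool) (i : ℕ) (v : List ℕ) :
    InCluster c ω (v ++ [i]) ↔
      InCluster (sub c i) (sub ω i) v ∧ i < c [] ∧ ω [i] = true := by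
  induction v with
  | nil => simp [InCluster]
  | cons j v ih =>
    simp only [List.cons_append, InCluster, ih, sub]
    tauto

lemma reach_zero (c : List ℕ → ℕ) (ω : List ℕ → Bool) : reach c ω 0 :=
  ⟨[], rfl, trivial⟩

lemma reach_succ (c : List ℕ → ℕ) (ω : List ℕ → Bool) (n : ℕ) :
    reach c ω (n + 1) ↔ ∃ i < c [], sub ω i [] = true ∧ reach (sub c i) (sub ω i) n := by
  constructor
  · rintro ⟨v, hv, hc⟩
    rcases List.eq_nil_or_concat v with rfl | ⟨w, i, rfl⟩
    · simp at hv
    · rw [List.concat_eq_append] at hv hc
      rw [inCluster_append] at hc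
      refine ⟨i, hc.2.1, by simpa [sub] using hc.2.2, w, by simpa using hv, hc.1⟩
  · rintro ⟨i, hi, ho, w, hw, hc⟩
    refine ⟨w ++ [i], by simp [hw], ?_⟩
    rw [inCluster_append]
    exact ⟨hc, hi, by simpa [sub] using ho⟩

lemma level_finite (c : List ℕ → ℕ) (ω : List ℕ → Bool) (n : ℕ) :
    {v | v.length = n ∧ InCluster c ω v}.Finite := by
  induction n with
  | zero =>
    refine (Set.finite_singleton ([] : List ℕ)).subset ?_
    rintro v ⟨hv, _⟩
    simpa using hv
  | succ n ih =>
    refine (ih.biUnion (t := fun v => (fun i => i :: v) '' (Set.Iio (c v)))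
      fun v _ => (Set.finite_Iio _).image _).subset ?_
    rintro v ⟨hv, hc⟩
    cases v with
    | nil => simp at hv
    | cons i v =>
      simp only [List.length_cons, add_left_inj] at hv
      simp only [InCluster] at hc
      exact Set.mem_biUnion (x := v) ⟨hv, hc.1⟩ ⟨i, hc.2.1, rfl⟩

lemma reach_le (c : List ℕ → ℕ) (ω : List ℕ → Bool) (v : List ℕ) (hv : InCluster c ω v) (n : ℕ)
    (hn : n ≤ v.length) : reach c ω n := by
  induction v with
  | nil =>
    have : n = 0 := by simpa using hn
    rw [this]; exact reach_zero c ω
  | cons i v ih =>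
    rcases Nat.lt_or_ge v.length n with h | h
    · exact ⟨i :: v, by simp only [List.length_cons] at hn ⊢; omega, hv⟩
    · exact ih hv.1 h

lemma infinite_iff (c : List ℕ → ℕ) (ω : List ℕ → Bool) :
    {v | InCluster c ω v}.Infinite ↔ ∀ n, reach c ω n := by
  constructor
  · intro hinf n
    by_contra hn
    apply hinf
    refine (Set.Finite.biUnion (Set.finite_Iio n) fun m _ => level_finite c ω m).subset ?_
    intro v hv
    have : v.length < n := by
      by_contra h
      exact hn (reach_le c ω v hv n (not_lt.1 h))
    exact Set.mem_biUnion (x := v.length) this ⟨rfl, hv⟩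
  · intro h hfin
    choose v hv using h
    have hinj : Function.Injective v := fun a b hab => by
      rw [← (hv a).1, ← (hv b).1, hab]
    exact Set.infinite_range_of_injective hinj (hfin.subset (by
      rintro _ ⟨n, rfl⟩; exact (hv n).2))

lemma measurableSet_inCluster (c : List ℕ → ℕ) (v : List ℕ) :
    MeasurableSet {ω | InCluster c ω v} := by
  induction v with
  | nil => simp [InCluster]
  | cons i v ih =>
    simp only [InCluster]
    refine ih.inter (MeasurableSet.inter (MeasurableSet.const _) ?_)
    exact measurableSet_eq_fun (measurable_pi_apply _) measurable_const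

lemma measurableSet_reach (c : List ℕ → ℕ) (n : ℕ) : MeasurableSet {ω | reach c ω n} := by
  have : {ω | reach c ω n} = ⋃ v ∈ {v : List ℕ | v.length = n}, {ω | InCluster c ω v} := by
    ext ω; simp [reach]
  rw [this]
  exact MeasurableSet.biUnion (Set.to_countable _) fun v _ => measurableSet_inCluster c v

/-! ### The recursion for the probability to reach level `n` -/

/-- The probability to reach level `n`. -/
noncomputable def G (p : ℝ) : ℕ → (List ℕ → ℕ) → ℝ
  | 0, _ => 1
  | n + 1, c => 1 - ∏ i ∈ Finset.range (c []), (1 - p * G p n (sub c i))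

/-- `1` if `b` is `true`, otherwise `0`. -/
def bR (b : Bool) : ℝ := if b then 1 else 0

/-- The indicator of reaching level `n`, as a function of the subtrees. -/
noncomputable def rho : ℕ → (List ℕ → ℕ) → (ℕ → List ℕ → Bool) → ℝ
  | 0, _, _ => 1
  | n + 1, c, s => 1 - ∏ i ∈ Finset.range (c []),
      (1 - bR (s i []) * rho n (sub c i) (sub (s i)))

open scoped Classical in
lemma rho_eq (n : ℕ) (c : List ℕ → ℕ) (ω : List ℕ → Bool) :
    rho n c (sub ω) = if reach c ω n then 1 else 0 := by
  induction n generalizing c ω with
  | zero => simp [rho, reach_zero]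
  | succ n ih =>
    simp only [rho, ih]
    by_cases h : reach c ω (n + 1)
    · rw [if_pos h]
      obtain ⟨i, hi, ho, hr⟩ := (reach_succ c ω n).1 h
      rw [Finset.prod_eq_zero (Finset.mem_range.2 hi), sub_zero]
      rw [if_pos hr, ho]; simp [bR]
    · rw [if_neg h, Finset.prod_eq_one, sub_self]
      intro i hi
      rw [reach_succ] at h
      push Not at h
      by_cases ho : sub ω i [] = true
      · rw [if_neg (h i (Finset.mem_range.1 hi) ho)]; simp
      · simp [bR, ho]

lemma measurable_bR : Measurable bR := Measurable.of_discrete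

lemma measurable_rho (n : ℕ) (c : List ℕ → ℕ) : Measurable (rho n c) := by
  induction n generalizing c with
  | zero => exact measurable_const
  | succ n ih =>
    refine measurable_const.sub (Finset.measurable_fun_prod _ fun i _ => ?_)
    refine measurable_const.sub ((measurable_bR.comp ?_).mul ((ih _).comp ?_))
    · exact (measurable_pi_apply _).comp (measurable_pi_apply i)
    · exact measurable_sub.comp (measurable_pi_apply i)

lemma integral_bR (p : I) : ∫ b, bR b ∂(bernoulliMeasure true false p) = p := by
  rw [bernoulliMeasure_def, integral_add_measure Integrable.of_finite Integrable.of_finite,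
    integral_smul_nnreal_measure, integral_smul_nnreal_measure, integral_dirac, integral_dirac]
  simp [bR, NNReal.smul_def]

lemma integral_first (p : I) (n : ℕ) (c : List ℕ → ℕ) :
    ∫ ω, bR (ω []) * rho n c (sub ω) ∂(perc p) = p * ∫ ω, rho n c (sub ω) ∂(perc p) := by
  have hsp := root_split (bernoulliMeasure true false p)
  have e1 := integral_map (μ := perc p) hsp.measurable.aemeasurable
      (f := fun q : Bool × (ℕ → (List ℕ → Bool)) => bR q.1 * rho n c q.2)
      (((measurable_bR.comp measurable_fst).mul
        ((measurable_rho n c).comp measurable_snd)).aestronglyMeasurable)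
  have e2 := integral_map (μ := perc p) hsp.measurable.aemeasurable
      (f := fun q : Bool × (ℕ → (List ℕ → Bool)) => rho n c q.2)
      (((measurable_rho n c).comp measurable_snd).aestronglyMeasurable)
  have e3 : Measure.map (fun ω : List ℕ → Bool => (ω [], sub ω)) (perc p) =
      (bernoulliMeasure true false p).prod (iid (perc p) ℕ) := hsp.map_eq
  rw [e3] at e1 e2
  rw [← e1, ← e2, integral_prod_mul, integral_bR]
  congr 1
  have := integral_prod_mul (μ := bernoulliMeasure true false p) (ν := iid (perc p) ℕ)
    (fun _ => (1 : ℝ)) (rho n c)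
  simpa using this.symm

theorem integral_rho (p : I) (n : ℕ) (c : List ℕ → ℕ) :
    ∫ ω, rho n c (sub ω) ∂(perc p) = G p n c := by
  induction n generalizing c with
  | zero => simp [rho, G]
  | succ n ih =>
    have hsp := root_split (bernoulliMeasure true false p)
    have e1 := integral_map (μ := perc p) hsp.measurable.aemeasurable
      (f := fun q : Bool × (ℕ → (List ℕ → Bool)) => rho (n + 1) c q.2)
      (((measurable_rho _ c).comp measurable_snd).aestronglyMeasurable)
    have e3 : Measure.map (fun ω : List ℕ → Bool => (ω [], sub ω)) (perc p) =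
      (bernoulliMeasure true false p).prod (iid (perc p) ℕ) := hsp.map_eq
    rw [e3] at e1
    rw [← e1]
    have e4 := integral_prod_mul (μ := bernoulliMeasure true false p) (ν := iid (perc p) ℕ)
      (fun _ => (1 : ℝ)) (rho (n + 1) c)
    simp only [one_mul, integral_const, probReal_univ, smul_eq_mul, mul_one] at e4
    rw [e4]
    simp only [rho, G]
    have hint : ∀ i, Integrable (fun ω : List ℕ → Bool =>
        1 - bR (ω []) * rho n (sub c i) (sub ω)) (perc p) := by
      intro i
      refine Integrable.of_bound (C := 2) ?_ (ae_of_all _ fun ω => ?_)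
      · exact (measurable_const.sub ((measurable_bR.comp (measurable_pi_apply _)).mul
          ((measurable_rho n _).comp measurable_sub))).aestronglyMeasurable
      · rw [rho_eq]
        cases ω [] <;> split_ifs <;> simp [bR]
    rw [integral_sub (integrable_const _)
      (iid_integrable_prod (perc p) (fun i ω => 1 - bR (ω []) * rho n (sub c i) (sub ω)) hint _)]
    rw [iid_integral_prod (perc p) (fun i ω => 1 - bR (ω []) * rho n (sub c i) (sub ω))
      fun i => (hint i).aestronglyMeasurable]
    simp only [integral_const, probReal_univ, smul_eq_mul, mul_one]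
    congr 1
    refine Finset.prod_congr rfl fun i _ => ?_
    have hb : Integrable (fun ω : List ℕ → Bool => bR (ω []) * rho n (sub c i) (sub ω))
        (perc p) := by
      refine ((integrable_const (1 : ℝ)).sub (hint i)).congr (ae_of_all _ fun ω => ?_)
      simp only [Pi.sub_apply]; ring
    rw [integral_sub (integrable_const _) hb, integral_first, ih]
    simp

theorem reach_prob (p : I) (n : ℕ) (c : List ℕ → ℕ) :
    (perc p).real {ω | reach c ω n} = G p n c := by
  classical
  rw [← integral_rho, ← integral_indicator_one (measurableSet_reach c n)]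
  refine integral_congr_ae (ae_of_all _ fun ω => ?_)
  simp only [rho_eq, Set.indicator_apply, Set.mem_ofPred_eq, Pi.one_apply]

/-- The survival probability is the limit of the probabilities to reach level `n`. -/
theorem tendsto_G (p : I) (c : List ℕ → ℕ) :
    Tendsto (fun n => G p n c) atTop (𝓝 (surv c p)) := by
  have e : {ω | {v | InCluster c ω v}.Infinite} = ⋂ n, {ω | reach c ω n} := by
    ext ω; simp [infinite_iff]
  have hanti : Antitone fun n => {ω : List ℕ → Bool | reach c ω n} := by
    intro m n hmn ω
    rintro ⟨v, hv, hc⟩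
    exact reach_le c ω v hc m (by omega)
  have h := tendsto_measure_iInter_atTop (μ := perc p)
    (fun n => (measurableSet_reach c n).nullMeasurableSet) hanti ⟨0, measure_ne_top _ _⟩
  unfold surv
  rw [e]
  have h2 := (ENNReal.tendsto_toReal (measure_ne_top (perc p) _)).comp h
  refine h2.congr fun n => ?_
  exact reach_prob p n c

lemma G_mem (p : I) (n : ℕ) (c : List ℕ → ℕ) : 0 ≤ G p n c ∧ G p n c ≤ 1 := by
  rw [← reach_prob]
  exact ⟨measureReal_nonneg, measureReal_le_one⟩

lemma G_mono {p q : I} (hpq : (p : ℝ) ≤ q) (n : ℕ) (c : List ℕ → ℕ) : G p n c ≤ G q n c := by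
  induction n generalizing c with
  | zero => exact le_rfl
  | succ n ih =>
    simp only [G]
    refine sub_le_sub_left (Finset.prod_le_prod (fun i _ => ?_) fun i _ => ?_) _
    · have := G_mem q n (sub c i)
      have := mul_le_one₀ q.2.2 this.1 this.2
      linarith
    · have := G_mem p n (sub c i)
      exact sub_le_sub_left (mul_le_mul hpq (ih _) this.1 q.2.1) _

theorem surv_mono (c : List ℕ → ℕ) {p q : I} (hpq : (p : ℝ) ≤ q) : surv c p ≤ surv c q :=
  le_of_tendsto_of_tendsto' (tendsto_G p c) (tendsto_G q c) fun n => G_mono hpq n c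

end Pool.Agent.Lib.MP_002529_pr
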