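import Mathlib
import Pool.Agent.Lib.MP_002529_pr.Perc

open MeasureTheory ProbabilityTheory Filter Topology Finset

namespace Pool.Agent.Lib.MP_002529_pr

section gf

variable (μ : Measure ℕ)

/-- The generating function. -/
noncomputable def phi {𝕜 : Type*} [RCLike 𝕜] (z : 𝕜) : 𝕜 := ∫ n, z ^ n ∂μ

/-- `(1 - φ(z)) / (1 - z)`. -/
noncomputable def Sf {𝕜 : Type*} [RCLike 𝕜] (z : 𝕜) : 𝕜 := ∫ n, ∑ j ∈ range n, z ^ j ∂μ

/-- The derivative of the generating function. -/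
noncomputable def kap (a : ℝ) : ℝ := ∫ n, (n : ℝ) * a ^ (n - 1) ∂μ

lemma phi_ofReal (a : ℝ) : phi μ (a : ℂ) = ((phi μ a : ℝ) : ℂ) := by
  unfold phi
  rw [← integral_complex_ofReal]
  simp

lemma Sf_ofReal (a : ℝ) : Sf μ (a : ℂ) = ((Sf μ a : ℝ) : ℂ) := by
  unfold Sf
  rw [← integral_complex_ofReal]
  simp

variable {μ} {R : ℝ}

lemma int_pow (hR : Integrable (fun n : ℕ => R ^ n) μ) (k : ℕ) {r : ℝ} (hr0 : 0 ≤ r)
    (hr : r < R) : Integrable (fun n : ℕ => (n : ℝ) ^ k * r ^ n) μ := by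
  have hR0 : 0 < R := hr0.trans_lt hr
  have hlt : |r / R| < 1 := by
    rw [abs_of_nonneg (by positivity), div_lt_one hR0]; exact hr
  obtain ⟨C, hC⟩ := (tendsto_pow_const_mul_const_pow_of_abs_lt_one k hlt).bddAbove_range
  refine (hR.const_mul C).mono Measurable.of_discrete.aestronglyMeasurable
    (ae_of_all _ fun n => ?_)
  have h1 : (n : ℝ) ^ k * (r / R) ^ n ≤ C := hC ⟨n, rfl⟩
  have h0 : 0 ≤ (n : ℝ) ^ k * (r / R) ^ n := by positivity
  rw [div_pow, mul_div_assoc', div_le_iff₀ (by positivity)] at h1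
  rw [Real.norm_of_nonneg (by positivity)]
  exact h1.trans (le_abs_self _)

lemma int_pow0 (hR : Integrable (fun n : ℕ => R ^ n) μ) {𝕜 : Type*} [RCLike 𝕜] {z : 𝕜}
    (hz : ‖z‖ < R) : Integrable (fun n : ℕ => z ^ n) μ := by
  refine (int_pow hR 0 (norm_nonneg z) hz).mono Measurable.of_discrete.aestronglyMeasurable
    (ae_of_all _ fun n => ?_)
  simp

lemma norm_geom_le {𝕜 : Type*} [RCLike 𝕜] {z : 𝕜} {r : ℝ} (hr1 : 1 ≤ r) (hz : ‖z‖ ≤ r) (n : ℕ) :
    ‖∑ j ∈ range n, z ^ j‖ ≤ (n : ℝ) * r ^ n := by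
  calc ‖∑ j ∈ range n, z ^ j‖ ≤ ∑ j ∈ range n, ‖z ^ j‖ := norm_sum_le _ _
    _ ≤ ∑ j ∈ range n, r ^ n := by
        refine Finset.sum_le_sum fun j hj => ?_
        rw [norm_pow]
        exact (pow_le_pow_left₀ (norm_nonneg _) hz j).trans
          (pow_le_pow_right₀ hr1 (Finset.mem_range.1 hj).le)
    _ = (n : ℝ) * r ^ n := by simp

lemma int_geom (hR1 : 1 < R) (hR : Integrable (fun n : ℕ => R ^ n) μ) {𝕜 : Type*} [RCLike 𝕜]
    {z : 𝕜} (hz : ‖z‖ < R) : Integrable (fun n : ℕ => ∑ j ∈ range n, z ^ j) μ := by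
  have hr : max 1 ‖z‖ < R := max_lt hR1 hz
  refine (int_pow hR 1 (zero_le_one.trans (le_max_left 1 ‖z‖)) hr).mono
    Measurable.of_discrete.aestronglyMeasurable (ae_of_all _ fun n => ?_)
  refine (norm_geom_le (le_max_left _ _) (le_max_right _ _) n).trans ?_
  rw [pow_one]
  exact le_abs_self _

lemma one_sub_mul_Sf [IsProbabilityMeasure μ] (hR : Integrable (fun n : ℕ => R ^ n) μ)
    {𝕜 : Type*} [RCLike 𝕜] {z : 𝕜} (hz : ‖z‖ < R) : (1 - z) * Sf μ z = 1 - phi μ z := by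
  unfold Sf phi
  rw [← integral_const_mul]
  have h := integral_sub (μ := μ) (integrable_const (1 : 𝕜)) (int_pow0 hR hz)
  simp only [integral_const, probReal_univ, one_smul] at h
  rw [← h]
  refine integral_congr_ae (ae_of_all _ fun n => ?_)
  simp only [mul_neg_geom_sum]

/-- The derivative of the geometric sum. -/
noncomputable def dgeom {𝕜 : Type*} [RCLike 𝕜] (z : 𝕜) (n : ℕ) : 𝕜 :=
  ∑ j ∈ range n, (j : 𝕜) * z ^ (j - 1)

lemma hasDerivAt_geom (z : ℂ) (n : ℕ) :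
    HasDerivAt (fun z : ℂ => ∑ j ∈ range n, z ^ j) (dgeom z n) z := by
  unfold dgeom
  exact HasDerivAt.fun_sum fun j _ => hasDerivAt_pow j z

lemma norm_dgeom_le {z : ℂ} {r : ℝ} (hr1 : 1 ≤ r) (hz : ‖z‖ ≤ r) (n : ℕ) :
    ‖dgeom z n‖ ≤ (n : ℝ) ^ 2 * r ^ n := by
  unfold dgeom
  calc ‖∑ j ∈ range n, (j : ℂ) * z ^ (j - 1)‖ ≤ ∑ j ∈ range n, ‖(j : ℂ) * z ^ (j - 1)‖ :=
        norm_sum_le _ _
    _ ≤ ∑ j ∈ range n, (n : ℝ) * r ^ n := by
        refine Finset.sum_le_sum fun j hj => ?_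
        rw [norm_mul, norm_pow, Complex.norm_natCast]
        have hjn := (Finset.mem_range.1 hj).le
        exact mul_le_mul (by exact_mod_cast hjn)
          ((pow_le_pow_left₀ (norm_nonneg _) hz _).trans
            (pow_le_pow_right₀ hr1 (by omega))) (by positivity) (by positivity)
    _ = (n : ℝ) ^ 2 * r ^ n := by simp; ring

lemma hasDerivAt_Sf (hR1 : 1 < R) (hR : Integrable (fun n : ℕ => R ^ n) μ) {z : ℂ}
    (hz : ‖z‖ < R) : HasDerivAt (Sf μ) (∫ n, dgeom z n ∂μ) z := by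
  obtain ⟨r, hr1, hr2⟩ := exists_between (max_lt hR1 hz)
  have hr1' : 1 ≤ r := (le_max_left 1 ‖z‖).trans hr1.le
  have hs : Metric.ball (0 : ℂ) r ∈ 𝓝 z :=
    Metric.isOpen_ball.mem_nhds (by
      rw [mem_ball_zero_iff]; exact (le_max_right 1 ‖z‖).trans_lt hr1)
  exact (hasDerivAt_integral_of_dominated_loc_of_deriv_le (F := fun (z : ℂ) (n : ℕ) =>
    ∑ j ∈ range n, z ^ j) (F' := fun z n => dgeom z n) (bound := fun n : ℕ => (n : ℝ) ^ 2 * r ^ n)
    hs (Eventually.of_forall fun _ => Measurable.of_discrete.aestronglyMeasurable)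
    (int_geom hR1 hR hz) Measurable.of_discrete.aestronglyMeasurable
    (ae_of_all _ fun n w hw => norm_dgeom_le hr1' (mem_ball_zero_iff.1 hw).le n)
    (int_pow hR 2 (by linarith) hr2)
    (ae_of_all _ fun n w _ => hasDerivAt_geom w n)).2

lemma differentiableOn_Sf (hR1 : 1 < R) (hR : Integrable (fun n : ℕ => R ^ n) μ) :
    DifferentiableOn ℂ (Sf μ : ℂ → ℂ) (Metric.ball 0 R) := fun z hz =>
  (hasDerivAt_Sf hR1 hR (mem_ball_zero_iff.1 hz)).differentiableAt.differentiableWithinAt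

lemma contDiffAt_Sf (hR1 : 1 < R) (hR : Integrable (fun n : ℕ => R ^ n) μ) {z : ℂ}
    (hz : ‖z‖ < R) : ContDiffAt ℂ 1 (Sf μ : ℂ → ℂ) z :=
  ((differentiableOn_Sf hR1 hR).analyticAt
    (Metric.isOpen_ball.mem_nhds (mem_ball_zero_iff.2 hz))).contDiffAt

/-- There is mass on `{2, 3, …}` if the mean is larger than `1`. -/
lemma exists_mass [IsProbabilityMeasure μ] (hm : 1 < ∫ n : ℕ, (n : ℝ) ∂μ) :
    0 < μ (Set.Ici (2 : ℕ)) := by
  by_contra h
  have h0 : μ (Set.Ici (2 : ℕ)) = 0 := by simpa using h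
  have hae : ∀ᵐ n : ℕ ∂μ, (n : ℝ) ≤ 1 := by
    rw [ae_iff]
    refine measure_mono_null ?_ h0
    intro n hn
    simp only [Set.mem_ofPred_eq, not_le, Nat.one_lt_cast] at hn
    exact hn
  have : ∫ n : ℕ, (n : ℝ) ∂μ ≤ ∫ _n : ℕ, (1 : ℝ) ∂μ :=
    integral_mono_of_nonneg (ae_of_all _ fun n => Nat.cast_nonneg n) (integrable_const _) hae
  simp at this
  linarith

lemma dgeom_ofReal (a : ℝ) (n : ℕ) : dgeom (a : ℂ) n = ((dgeom a n : ℝ) : ℂ) := by
  unfold dgeom; simp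

lemma dgeom_nonneg {a : ℝ} (ha : 0 ≤ a) (n : ℕ) : 0 ≤ dgeom a n :=
  Finset.sum_nonneg fun j _ => by positivity

lemma one_le_dgeom {a : ℝ} (ha : 0 ≤ a) {n : ℕ} (hn : 2 ≤ n) : 1 ≤ dgeom a n := by
  unfold dgeom
  have := Finset.single_le_sum (f := fun j : ℕ => (j : ℝ) * a ^ (j - 1))
    (fun j _ => by positivity) (Finset.mem_range.2 (show 1 < n by omega))
  simpa using this

lemma int_dgeom (hR1 : 1 < R) (hR : Integrable (fun n : ℕ => R ^ n) μ) {a : ℝ}
    (ha0 : 0 ≤ a) (ha : a < R) : Integrable (fun n => dgeom a n) μ := by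
  have hr : max 1 a < R := max_lt hR1 ha
  refine (int_pow hR 2 (zero_le_one.trans (le_max_left 1 a)) hr).mono
    Measurable.of_discrete.aestronglyMeasurable (ae_of_all _ fun n => ?_)
  have := norm_dgeom_le (z := (a : ℂ)) (le_max_left 1 a)
    (by rw [Complex.norm_real, Real.norm_of_nonneg ha0]; exact le_max_right _ _) n
  rw [dgeom_ofReal, Complex.norm_real] at this
  exact this.trans (le_abs_self _)

lemma deriv_Sf_ne [IsProbabilityMeasure μ] (hR1 : 1 < R)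
    (hR : Integrable (fun n : ℕ => R ^ n) μ)
    (hm : 1 < ∫ n : ℕ, (n : ℝ) ∂μ) {a : ℝ} (ha0 : 0 ≤ a) (ha : a < R) :
    ∫ n, dgeom (a : ℂ) n ∂μ ≠ 0 := by
  simp_rw [dgeom_ofReal]
  rw [integral_complex_ofReal, Complex.ofReal_ne_zero]
  apply ne_of_gt
  rw [integral_pos_iff_support_of_nonneg (fun n => dgeom_nonneg ha0 n) (int_dgeom hR1 hR ha0 ha)]
  refine (exists_mass hm).trans_le (measure_mono fun n hn => ?_)
  exact ne_of_gt (lt_of_lt_of_le one_pos (one_le_dgeom ha0 hn))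

/-! ### Real facts -/

lemma phi_nonneg {a : ℝ} (ha : 0 ≤ a) : 0 ≤ phi μ a := integral_nonneg fun n => pow_nonneg ha n

lemma phi_le_of_le (hR : Integrable (fun n : ℕ => R ^ n) μ) {a b : ℝ} (ha : 0 ≤ a)
    (hab : a ≤ b) (hb : b < R) : phi μ a ≤ phi μ b :=
  integral_mono (int_pow0 hR (by rw [Real.norm_of_nonneg ha]; linarith))
    (int_pow0 hR (by rw [Real.norm_of_nonneg (ha.trans hab)]; exact hb))
    fun n => pow_le_pow_left₀ ha hab n

lemma phi_one [IsProbabilityMeasure μ] : phi μ (1 : ℝ) = 1 := by simp [phi]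

lemma phi_le_one [IsProbabilityMeasure μ] {a : ℝ} (ha : 0 ≤ a) (ha1 : a ≤ 1) : phi μ a ≤ 1 := by
  have : phi μ a ≤ ∫ _n : ℕ, (1 : ℝ) ∂μ :=
    integral_mono_of_nonneg (ae_of_all _ fun n => pow_nonneg ha n) (integrable_const _)
      (ae_of_all _ fun n => pow_le_one₀ ha ha1)
  simpa using this

lemma int_kap (hR1 : 1 < R) (hR : Integrable (fun n : ℕ => R ^ n) μ) {a : ℝ} (ha : 0 ≤ a)
    (haR : a < R) : Integrable (fun n : ℕ => (n : ℝ) * a ^ (n - 1)) μ := by
  have hr : max 1 a < R := max_lt hR1 haR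
  refine (int_pow hR 1 (zero_le_one.trans (le_max_left 1 a)) hr).mono
    Measurable.of_discrete.aestronglyMeasurable (ae_of_all _ fun n => ?_)
  rw [Real.norm_of_nonneg (by positivity), Real.norm_of_nonneg (by positivity), pow_one]
  refine mul_le_mul_of_nonneg_left ?_ (Nat.cast_nonneg n)
  exact (pow_le_pow_left₀ ha (le_max_right 1 a) _).trans
    (pow_le_pow_right₀ (le_max_left 1 a) (by omega))

lemma pow_sub_pow_le {a b c : ℝ} (ha : 0 ≤ a) (hab : a ≤ b) (hbc : b ≤ c) (n : ℕ) :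
    b ^ n - a ^ n ≤ (b - a) * ((n : ℝ) * c ^ (n - 1)) := by
  rw [← (Commute.all b a).mul_geom_sum₂]
  refine mul_le_mul_of_nonneg_left ?_ (by linarith)
  calc ∑ i ∈ range n, b ^ i * a ^ (n - 1 - i) ≤ ∑ i ∈ range n, c ^ (n - 1) := by
        refine Finset.sum_le_sum fun i hi => ?_
        have hi' := Finset.mem_range.1 hi
        calc b ^ i * a ^ (n - 1 - i) ≤ c ^ i * c ^ (n - 1 - i) :=
              mul_le_mul (pow_le_pow_left₀ (by linarith) hbc _)
                (pow_le_pow_left₀ ha (by linarith) _) (by positivity)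
                (pow_nonneg (by linarith) _)
          _ = c ^ (n - 1) := by rw [← pow_add]; congr 1; omega
    _ = (n : ℝ) * c ^ (n - 1) := by simp

lemma phi_sub_le (hR1 : 1 < R) (hR : Integrable (fun n : ℕ => R ^ n) μ) {a b c : ℝ} (ha : 0 ≤ a)
    (hab : a ≤ b) (hbc : b ≤ c) (hc : c < R) : phi μ b - phi μ a ≤ (b - a) * kap μ c := by
  unfold phi kap
  rw [← integral_sub, ← integral_const_mul]
  · exact integral_mono ((int_pow0 hR (by rw [Real.norm_of_nonneg (by linarith)]; linarith)).sub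
      (int_pow0 hR (by rw [Real.norm_of_nonneg ha]; linarith)))
      ((int_kap hR1 hR (by linarith) hc).const_mul _) fun n => pow_sub_pow_le ha hab hbc n
  · exact int_pow0 hR (by rw [Real.norm_of_nonneg (by linarith)]; linarith)
  · exact int_pow0 hR (by rw [Real.norm_of_nonneg ha]; linarith)

lemma kap_nonneg {a : ℝ} (ha : 0 ≤ a) : 0 ≤ kap μ a :=
  integral_nonneg fun n => by positivity

lemma kap_le_Sf (hR1 : 1 < R) (hR : Integrable (fun n : ℕ => R ^ n) μ) {u : ℝ} (hu0 : 0 ≤ u)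
    (hu1 : u ≤ 1) : kap μ u ≤ Sf μ u := by
  refine integral_mono (int_kap hR1 hR hu0 (by linarith))
    (int_geom hR1 hR (by rw [Real.norm_of_nonneg hu0]; linarith)) fun n => ?_
  simp only
  calc (n : ℝ) * u ^ (n - 1) = ∑ j ∈ range n, u ^ (n - 1) := by simp
    _ ≤ ∑ j ∈ range n, u ^ j := Finset.sum_le_sum fun j hj =>
        pow_le_pow_of_le_one hu0 hu1 (by have := Finset.mem_range.1 hj; omega)

lemma continuousAt_kap (hR1 : 1 < R) (hR : Integrable (fun n : ℕ => R ^ n) μ) {u : ℝ}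
    (hu0 : 0 < u) (hu : u < R) : ContinuousAt (kap μ) u := by
  obtain ⟨r, hr1, hr2⟩ := exists_between (max_lt hR1 hu)
  have hr1' : 1 ≤ r := (le_max_left 1 u).trans hr1.le
  have hur : u < r := (le_max_right 1 u).trans_lt hr1
  refine continuousAt_of_dominated (bound := fun n : ℕ => (n : ℝ) * r ^ (n - 1))
    (Eventually.of_forall fun _ => Measurable.of_discrete.aestronglyMeasurable) ?_
    (int_kap hR1 hR (by linarith) hr2) (ae_of_all _ fun n => by fun_prop)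
  filter_upwards [Ioo_mem_nhds hu0 hur] with x hx
  refine ae_of_all _ fun n => ?_
  rw [Real.norm_of_nonneg (by have := hx.1; positivity)]
  exact mul_le_mul_of_nonneg_left (pow_le_pow_left₀ hx.1.le hx.2.le _) (Nat.cast_nonneg n)

lemma continuousAt_Sf (hR1 : 1 < R) (hR : Integrable (fun n : ℕ => R ^ n) μ) {u : ℝ}
    (hu0 : 0 < u) (hu : u < R) : ContinuousAt (Sf μ : ℝ → ℝ) u := by
  obtain ⟨r, hr1, hr2⟩ := exists_between (max_lt hR1 hu)
  have hr1' : 1 ≤ r := (le_max_left 1 u).trans hr1.le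
  have hur : u < r := (le_max_right 1 u).trans_lt hr1
  refine continuousAt_of_dominated (bound := fun n : ℕ => (n : ℝ) ^ 1 * r ^ n)
    (Eventually.of_forall fun _ => Measurable.of_discrete.aestronglyMeasurable) ?_
    (int_pow hR 1 (by linarith) hr2) (ae_of_all _ fun n => by fun_prop)
  filter_upwards [Ioo_mem_nhds hu0 hur] with x hx
  refine ae_of_all _ fun n => ?_
  rw [pow_one]
  exact norm_geom_le hr1' (by rw [Real.norm_of_nonneg hx.1.le]; exact hx.2.le) n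

lemma Sf_strictMono [IsProbabilityMeasure μ] (hR1 : 1 < R)
    (hR : Integrable (fun n : ℕ => R ^ n) μ)
    (hm : 1 < ∫ n : ℕ, (n : ℝ) ∂μ) {a b : ℝ} (ha : 0 ≤ a) (hab : a < b) (hb : b < R) :
    Sf μ a < Sf μ b := by
  have hia := int_geom hR1 hR (z := a) (by rw [Real.norm_of_nonneg ha]; linarith)
  have hib := int_geom hR1 hR (z := b) (by rw [Real.norm_of_nonneg (by linarith)]; linarith)
  unfold Sf
  rw [← sub_pos, ← integral_sub hib hia]
  have hint : Integrable (fun n : ℕ => ∑ j ∈ range n, b ^ j - ∑ j ∈ range n, a ^ j) μ :=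
    hib.sub hia
  rw [integral_pos_iff_support_of_nonneg ?_ hint]
  · refine (exists_mass hm).trans_le (measure_mono fun n hn => ?_)
    have hn' : 2 ≤ n := hn
    apply ne_of_gt
    rw [sub_pos]
    refine Finset.sum_lt_sum (fun j _ => pow_le_pow_left₀ ha hab.le j)
      ⟨1, Finset.mem_range.2 (by omega), by simpa using hab⟩
  · intro n
    simp only [Pi.zero_apply, sub_nonneg]
    exact Finset.sum_le_sum fun j _ => pow_le_pow_left₀ ha hab.le j

lemma Sf_one : Sf μ (1 : ℝ) = ∫ n : ℕ, (n : ℝ) ∂μ := by simp [Sf]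

end gf

end Pool.Agent.Lib.MP_002529_pr
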