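import Mathlib
import Pool.Agent.Lib.MP_002529_pr.Gf

open MeasureTheory ProbabilityTheory Filter Topology

namespace Pool.Agent.Lib.MP_002529_pr

section annealed

variable (μ : Measure ℕ)

/-- The probability that an edge together with the tree above it does not reach level `n`,
averaged over the tree. -/
noncomputable def yr (p : ℝ) : ℕ → ℝ
  | 0 => 1 - p
  | n + 1 => 1 - p + p * phi μ (yr p n)

/-- The limit of `yr`. -/
noncomputable def ur (p : ℝ) : ℝ := ⨆ n, yr μ p n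

variable {μ} [IsProbabilityMeasure μ] {R : ℝ}

lemma yr_mem {p : ℝ} (hp0 : 0 ≤ p) (hp1 : p ≤ 1) (n : ℕ) : 1 - p ≤ yr μ p n ∧ yr μ p n ≤ 1 := by
  induction n with
  | zero => simp only [yr]; constructor <;> linarith
  | succ n ih =>
    have h1 := phi_nonneg (μ := μ) (a := yr μ p n) (by linarith)
    have h2 := phi_le_one (μ := μ) (a := yr μ p n) (by linarith) ih.2
    simp only [yr]
    constructor
    · have := mul_nonneg hp0 h1; linarith
    · have := mul_le_mul_of_nonneg_left h2 hp0; linarith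

lemma yr_mono (hR1 : 1 < R) (hR : Integrable (fun n : ℕ => R ^ n) μ) {p : ℝ} (hp0 : 0 ≤ p)
    (hp1 : p ≤ 1) : Monotone (yr μ p) := by
  refine monotone_nat_of_le_succ fun n => ?_
  induction n with
  | zero =>
    have h1 := phi_nonneg (μ := μ) (a := yr μ p 0) (by simp [yr]; linarith)
    simp only [yr] at h1 ⊢
    have := mul_nonneg hp0 h1; linarith
  | succ n ih =>
    have h := yr_mem (μ := μ) hp0 hp1 n
    have h' := yr_mem (μ := μ) hp0 hp1 (n + 1)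
    have := phi_le_of_le hR (by linarith) ih (by linarith)
    have := mul_le_mul_of_nonneg_left this hp0
    simp only [yr] at this ⊢
    linarith

lemma yr_bdd {p : ℝ} (hp0 : 0 ≤ p) (hp1 : p ≤ 1) : BddAbove (Set.range (yr μ p)) :=
  ⟨1, by rintro _ ⟨n, rfl⟩; exact (yr_mem hp0 hp1 n).2⟩

lemma tendsto_yr (hR1 : 1 < R) (hR : Integrable (fun n : ℕ => R ^ n) μ) {p : ℝ} (hp0 : 0 ≤ p)
    (hp1 : p ≤ 1) : Tendsto (yr μ p) atTop (𝓝 (ur μ p)) :=
  tendsto_atTop_ciSup (yr_mono hR1 hR hp0 hp1) (yr_bdd hp0 hp1)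

lemma ur_mem {p : ℝ} (hp0 : 0 ≤ p) (hp1 : p ≤ 1) : 1 - p ≤ ur μ p ∧ ur μ p ≤ 1 :=
  ⟨(yr_mem hp0 hp1 0).1.trans (le_ciSup (yr_bdd hp0 hp1) 0),
    ciSup_le fun n => (yr_mem hp0 hp1 n).2⟩

lemma ur_eq (hR1 : 1 < R) (hR : Integrable (fun n : ℕ => R ^ n) μ) {p : ℝ} (hp0 : 0 ≤ p)
    (hp1 : p ≤ 1) : ur μ p = 1 - p + p * phi μ (ur μ p) := by
  have ht := tendsto_yr (μ := μ) hR1 hR hp0 hp1
  have hu := ur_mem (μ := μ) hp0 hp1
  have h1 : Tendsto (fun n => phi μ (yr μ p n)) atTop (𝓝 (phi μ (ur μ p))) := by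
    have hz : Tendsto (fun n => (ur μ p - yr μ p n) * kap μ 1) atTop (𝓝 0) := by
      have := (tendsto_const_nhds (x := ur μ p)).sub ht
      rw [sub_self] at this
      simpa using this.mul_const (kap μ 1)
    have hz2 : Tendsto (fun n => phi μ (ur μ p) - phi μ (yr μ p n)) atTop (𝓝 0) := by
      refine squeeze_zero (fun n => ?_) (fun n => ?_) hz
      · have hn := yr_mem (μ := μ) hp0 hp1 n
        have hle : yr μ p n ≤ ur μ p := le_ciSup (yr_bdd hp0 hp1) n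
        exact sub_nonneg.2 (phi_le_of_le hR (by linarith) hle (by linarith))
      · have hn := yr_mem (μ := μ) hp0 hp1 n
        have hle : yr μ p n ≤ ur μ p := le_ciSup (yr_bdd hp0 hp1) n
        exact phi_sub_le hR1 hR (by linarith) hle hu.2 hR1
    have := (tendsto_const_nhds (x := phi μ (ur μ p))).sub hz2
    simpa using this
  have h2 : Tendsto (fun n => yr μ p (n + 1)) atTop (𝓝 (1 - p + p * phi μ (ur μ p))) :=
    (h1.const_mul p).const_add (1 - p)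
  exact tendsto_nhds_unique ((tendsto_add_atTop_iff_nat 1).2 ht) h2

theorem ur_spec (hR1 : 1 < R) (hR : Integrable (fun n : ℕ => R ^ n) μ)
    (hm : 1 < ∫ n : ℕ, (n : ℝ) ∂μ) {p : ℝ} (hp : (∫ n : ℕ, (n : ℝ) ∂μ)⁻¹ ≤ p) (hp1 : p < 1) :
    p * Sf μ (ur μ p) = 1 := by
  set m := ∫ n : ℕ, (n : ℝ) ∂μ with hmdef
  have hp0 : 0 < p := lt_of_lt_of_le (by positivity) hp
  have hpm : 1 ≤ p * m := by
    rwa [inv_le_iff_one_le_mul₀ (by linarith)] at hp
  have hu := ur_mem (μ := μ) hp0.le hp1.le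
  have hne : ‖ur μ p‖ < R := by rw [Real.norm_of_nonneg (by linarith)]; linarith
  have hS := one_sub_mul_Sf (μ := μ) hR hne
  have he := ur_eq (μ := μ) hR1 hR hp0.le hp1.le
  rcases eq_or_lt_of_le hu.2 with h1 | h1
  · -- `u = 1`
    rw [h1, Sf_one, ← hmdef]
    by_contra hne1
    have hlt : 1 < p * m := lt_of_le_of_ne hpm (Ne.symm hne1)
    have hc : ContinuousAt (fun s : ℝ => p * Sf μ s) 1 :=
      (continuousAt_Sf hR1 hR one_pos hR1).const_mul p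
    have hev : ∀ᶠ s in 𝓝 (1 : ℝ), 1 < p * Sf μ s := by
      apply hc.eventually_const_lt
      beta_reduce
      rw [Sf_one]; exact hlt
    have hev2 : ∀ᶠ s in 𝓝[<] (1 : ℝ), 1 < p * Sf μ s ∧ 0 < s ∧ s < 1 := by
      filter_upwards [hev.filter_mono nhdsWithin_le_nhds,
        (lt_mem_nhds (zero_lt_one' ℝ)).filter_mono nhdsWithin_le_nhds, self_mem_nhdsWithin]
        with s h1 h2 h3
      exact ⟨h1, h2, h3⟩
    obtain ⟨s, hs1, hs0, hs2⟩ := hev2.exists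
    have hSs := one_sub_mul_Sf (μ := μ) hR (z := s) (by
      rw [Real.norm_of_nonneg hs0.le]; linarith)
    have hle : 1 - p + p * phi μ s ≤ s := by nlinarith
    have hys : ∀ n, yr μ p n ≤ s := by
      intro n
      induction n with
      | zero =>
        simp only [yr]
        have := mul_nonneg hp0.le (phi_nonneg (μ := μ) hs0.le)
        linarith
      | succ n ih =>
        have hn := yr_mem (μ := μ) hp0.le hp1.le n
        have := phi_le_of_le hR (by linarith) ih (by linarith)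
        have := mul_le_mul_of_nonneg_left this hp0.le
        simp only [yr]
        linarith
    have : ur μ p ≤ s := ciSup_le hys
    linarith
  · have h2 : (1 - ur μ p) * (p * Sf μ (ur μ p)) = (1 - ur μ p) * 1 := by
      rw [mul_left_comm, hS]; linarith
    exact mul_left_cancel₀ (by linarith) h2

theorem continuousWithinAt_ur (hR1 : 1 < R) (hR : Integrable (fun n : ℕ => R ^ n) μ)
    (hm : 1 < ∫ n : ℕ, (n : ℝ) ∂μ) {p₀ : ℝ}
    (hp₀ : p₀ ∈ Set.Ico (∫ n : ℕ, (n : ℝ) ∂μ)⁻¹ 1) :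
    Tendsto (ur μ) (𝓝[Set.Ico (∫ n : ℕ, (n : ℝ) ∂μ)⁻¹ 1] p₀) (𝓝 (ur μ p₀)) := by
  set m := ∫ n : ℕ, (n : ℝ) ∂μ with hmdef
  have hpos : ∀ p ∈ Set.Ico m⁻¹ 1, 0 < p := fun p hp => lt_of_lt_of_le (by positivity) hp.1
  have hS : ∀ p ∈ Set.Ico m⁻¹ 1, Sf μ (ur μ p) = p⁻¹ := fun p hp => by
    have := ur_spec hR1 hR hm hp.1 hp.2
    rw [eq_inv_of_mul_eq_one_right this]
  have hu : ∀ p ∈ Set.Ico m⁻¹ 1, 0 < ur μ p ∧ ur μ p ≤ 1 := fun p hp => by
    have := ur_mem (μ := μ) (hpos p hp).le hp.2.le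
    exact ⟨by have := hp.2; linarith, this.2⟩
  have hinv : ContinuousAt (fun p : ℝ => p⁻¹) p₀ := continuousAt_inv₀ (hpos _ hp₀).ne'
  refine tendsto_order.2 ⟨fun a ha => ?_, fun b hb => ?_⟩
  · have ha' : max a 0 < ur μ p₀ := max_lt ha (hu _ hp₀).1
    have h1 := Sf_strictMono (μ := μ) hR1 hR hm (le_max_right a 0) ha' (by
      have := (hu _ hp₀).2; linarith)
    rw [hS _ hp₀] at h1
    filter_upwards [(hinv.eventually_const_lt h1).filter_mono nhdsWithin_le_nhds,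
      self_mem_nhdsWithin] with p hp1 hp2
    rw [← hS p hp2] at hp1
    refine (le_max_left a 0).trans_lt ?_
    by_contra hcon
    rcases eq_or_lt_of_le (not_lt.1 hcon) with h | h
    · rw [h] at hp1; exact lt_irrefl _ hp1
    · exact absurd (Sf_strictMono (μ := μ) hR1 hR hm (hu p hp2).1.le h (by
        have := (hu _ hp₀).2; linarith)) (not_lt.2 hp1.le)
  · obtain ⟨b', hb1, hb2⟩ := exists_between (lt_min hb ((hu _ hp₀).2.trans_lt hR1))
    have h1 := Sf_strictMono (μ := μ) hR1 hR hm (hu _ hp₀).1.le hb1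
      (hb2.trans_le (min_le_right _ _))
    rw [hS _ hp₀] at h1
    filter_upwards [(hinv.eventually_lt_const h1).filter_mono nhdsWithin_le_nhds,
      self_mem_nhdsWithin] with p hp1 hp2
    rw [← hS p hp2] at hp1
    refine lt_trans ?_ (hb2.trans_le (min_le_left _ _))
    by_contra hcon
    rcases eq_or_lt_of_le (not_lt.1 hcon) with h | h
    · rw [h] at hp1; exact lt_irrefl _ hp1
    · exact absurd (Sf_strictMono (μ := μ) hR1 hR hm (by
        have := (hu _ hp₀).1; linarith) h (by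
        have := (hu _ hp2).2; linarith)) (not_lt.2 hp1.le)

/-- Local analytic extension of the annealed function, with the constants needed for the
contraction. -/
theorem local_data (hR1 : 1 < R) (hR : Integrable (fun n : ℕ => R ^ n) μ)
    (hm : 1 < ∫ n : ℕ, (n : ℝ) ∂μ) {p₀ : ℝ}
    (hp₀ : p₀ ∈ Set.Ico (∫ n : ℕ, (n : ℝ) ∂μ)⁻¹ 1) :
    ∃ (u : ℂ → ℂ) (r a ρ : ℝ), 0 < r ∧ 0 < a ∧ a < R ∧ 0 < ρ ∧ ρ < 1 ∧
      DifferentiableOn ℂ u (Metric.ball (p₀ : ℂ) r) ∧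
      (∀ z ∈ Metric.ball (p₀ : ℂ) r, u z = 1 - z + z * phi μ (u z) ∧ ‖u z‖ ^ 2 ≤ a ∧
        ‖u z‖ < R ∧
        ‖z‖ ^ 2 * kap μ a ≤ ρ ∧ ‖u z‖ ^ 2 - ‖u z - 1 + z‖ ^ 2 + ‖z‖ ^ 2 * phi μ a ≤ a) ∧
      ∀ p : ℝ, p ∈ Set.Ico (∫ n : ℕ, (n : ℝ) ∂μ)⁻¹ 1 → |p - p₀| < r → u p = ur μ p := by
  have hcw := continuousWithinAt_ur hR1 hR hm hp₀
  set m := ∫ n : ℕ, (n : ℝ) ∂μ with hmdef
  have hpos : ∀ p ∈ Set.Ico m⁻¹ 1, 0 < p := fun p hp => lt_of_lt_of_le (by positivity) hp.1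
  have hS : ∀ p ∈ Set.Ico m⁻¹ 1, Sf μ (ur μ p) = p⁻¹ := fun p hp => by
    have := ur_spec hR1 hR hm hp.1 hp.2
    rw [eq_inv_of_mul_eq_one_right this]
  have hp0 := hpos _ hp₀
  have hum := ur_mem (μ := μ) hp0.le hp₀.2.le
  set u₀ := ur μ p₀ with hu₀
  have hu0 : 0 < u₀ := by have := hp₀.2; linarith
  have hu1 : u₀ ≤ 1 := hum.2
  have huR : ‖(u₀ : ℂ)‖ < R := by
    rw [Complex.norm_real, Real.norm_of_nonneg hu0.le]; linarith
  -- the function `f = 1 / S`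
  have hSan : AnalyticAt ℂ (Sf μ : ℂ → ℂ) u₀ := (differentiableOn_Sf hR1 hR).analyticAt
    (Metric.isOpen_ball.mem_nhds (mem_ball_zero_iff.2 huR))
  have hSval : Sf μ (u₀ : ℂ) = ((p₀⁻¹ : ℝ) : ℂ) := by rw [Sf_ofReal, hS _ hp₀]
  have hSne : Sf μ (u₀ : ℂ) ≠ 0 := by
    rw [hSval, Complex.ofReal_ne_zero]; exact inv_ne_zero hp0.ne'
  have hfan : AnalyticAt ℂ (fun z : ℂ => (Sf μ z)⁻¹) u₀ := hSan.inv hSne
  have hfd : deriv (fun z : ℂ => (Sf μ z)⁻¹) u₀ ≠ 0 := by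
    have h1 := (hasDerivAt_Sf hR1 hR huR).fun_inv hSne
    rw [h1.deriv]
    exact div_ne_zero (neg_ne_zero.2 (deriv_Sf_ne hR1 hR hm hu0.le (by linarith)))
      (pow_ne_zero _ hSne)
  have hf0 : (Sf μ (u₀ : ℂ))⁻¹ = (p₀ : ℂ) := by
    rw [hSval]; push_cast; rw [inv_inv]
  set u : ℂ → ℂ := hfan.hasStrictDerivAt.localInverse _ _ _ hfd with hu
  have huan : AnalyticAt ℂ u (p₀ : ℂ) := by
    have := hfan.analyticAt_localInverse hfd
    beta_reduce at this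
    rwa [hf0] at this
  have hu00 : u p₀ = u₀ := by
    have : u ((fun z : ℂ => (Sf μ z)⁻¹) u₀) = u₀ := HasStrictFDerivAt.localInverse_apply_image ..
    beta_reduce at this
    rwa [hf0] at this
  have huc : ContinuousAt u p₀ := huan.continuousAt
  have hright : ∀ᶠ z in 𝓝 (p₀ : ℂ), (Sf μ (u z))⁻¹ = z := by
    have := hfan.hasStrictDerivAt.eventually_right_inverse hfd
    beta_reduce at this
    rwa [hf0] at this
  have hleft : ∀ᶠ w in 𝓝 (u₀ : ℂ), u ((Sf μ w)⁻¹) = w :=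
    hfan.hasStrictDerivAt.eventually_left_inverse hfd
  -- the level `a`
  have hk0 : p₀ ^ 2 * kap μ u₀ < 1 := by
    have h1 := kap_le_Sf (μ := μ) hR1 hR hu0.le hu1
    rw [hS _ hp₀] at h1
    have h2 : p₀ ^ 2 * kap μ u₀ ≤ p₀ ^ 2 * p₀⁻¹ := mul_le_mul_of_nonneg_left h1 (by positivity)
    have h3 : p₀ ^ 2 * p₀⁻¹ = p₀ := by field_simp
    have := hp₀.2
    linarith
  have hkc : ContinuousAt (fun a => p₀ ^ 2 * kap μ a) u₀ :=
    (continuousAt_kap hR1 hR hu0 (by linarith)).const_mul _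
  obtain ⟨a, hka, haR, hua⟩ : ∃ a, p₀ ^ 2 * kap μ a < 1 ∧ a < R ∧ u₀ < a := by
    have hev : ∀ᶠ a in 𝓝[>] u₀, p₀ ^ 2 * kap μ a < 1 ∧ a < R ∧ u₀ < a := by
      filter_upwards [(hkc.eventually_lt_const hk0).filter_mono nhdsWithin_le_nhds,
        (gt_mem_nhds (show u₀ < R by linarith)).filter_mono nhdsWithin_le_nhds,
        self_mem_nhdsWithin] with a h1 h2 h3
      exact ⟨h1, h2, h3⟩
    exact hev.exists
  have ha0 : 0 < a := hu0.trans hua
  obtain ⟨ρ, hρ1, hρ2⟩ := exists_between hka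
  have hρ0 : 0 < ρ := lt_of_le_of_lt (mul_nonneg (by positivity) (kap_nonneg ha0.le)) hρ1
  -- the value of the map at `p₀`
  have hΦ : u₀ ^ 2 - (u₀ - 1 + p₀) ^ 2 + p₀ ^ 2 * phi μ a < a := by
    have h1 := phi_sub_le (μ := μ) hR1 hR hu0.le hua.le le_rfl haR
    have h2 := ur_eq (μ := μ) hR1 hR hp0.le hp₀.2.le
    rw [← hu₀] at h2
    have h3 : p₀ ^ 2 * phi μ u₀ = p₀ * (u₀ - 1 + p₀) := by
      have : p₀ * phi μ u₀ = u₀ - 1 + p₀ := by linarith
      rw [← this]; ring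
    have h4 : p₀ ^ 2 * phi μ a ≤ p₀ ^ 2 * phi μ u₀ + (a - u₀) * (p₀ ^ 2 * kap μ a) := by
      have := mul_le_mul_of_nonneg_left h1 (by positivity : 0 ≤ p₀ ^ 2)
      linarith
    have h5 : (a - u₀) * (p₀ ^ 2 * kap μ a) < a - u₀ :=
      mul_lt_of_lt_one_right (by linarith) hka
    have h6 : 0 ≤ (1 - u₀) * (1 - p₀) := mul_nonneg (by linarith) (by have := hp₀.2; linarith)
    nlinarith
  have hu2 : u₀ ^ 2 < a := by nlinarith
  -- neighbourhoods
  have e1 : ∀ᶠ z in 𝓝 (p₀ : ℂ), ‖u z‖ ^ 2 < a := by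
    have hc : ContinuousAt (fun z => ‖u z‖ ^ 2) (p₀ : ℂ) := huc.norm.pow 2
    apply hc.eventually_lt_const
    beta_reduce
    rw [hu00, Complex.norm_real, Real.norm_of_nonneg hu0.le]; exact hu2
  have e2 : ∀ᶠ z in 𝓝 (p₀ : ℂ), ‖u z‖ < R := by
    apply huc.norm.eventually_lt_const
    beta_reduce
    rw [hu00]; exact huR
  have e3 : ∀ᶠ z in 𝓝 (p₀ : ℂ), ‖z‖ ^ 2 * kap μ a < ρ := by
    have hc : ContinuousAt (fun z : ℂ => ‖z‖ ^ 2 * kap μ a) (p₀ : ℂ) := by fun_prop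
    apply hc.eventually_lt_const
    beta_reduce
    rw [Complex.norm_real, Real.norm_of_nonneg hp0.le]; exact hρ1
  have e4 : ∀ᶠ z in 𝓝 (p₀ : ℂ),
      ‖u z‖ ^ 2 - ‖u z - 1 + z‖ ^ 2 + ‖z‖ ^ 2 * phi μ a < a := by
    have hc : ContinuousAt (fun z => ‖u z‖ ^ 2 - ‖u z - 1 + z‖ ^ 2 + ‖z‖ ^ 2 * phi μ a)
        (p₀ : ℂ) :=
      ((huc.norm.pow 2).sub ((((huc.sub continuousAt_const).add continuousAt_id)).norm.pow 2)).add
        ((continuousAt_id.norm.pow 2).mul continuousAt_const)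
    apply hc.eventually_lt_const
    beta_reduce
    simp only [hu00]
    have : (u₀ : ℂ) - 1 + p₀ = ((u₀ - 1 + p₀ : ℝ) : ℂ) := by push_cast; ring
    rw [this, Complex.norm_real, Complex.norm_real, Complex.norm_real, Real.norm_eq_abs,
      Real.norm_eq_abs, Real.norm_eq_abs, sq_abs, sq_abs, sq_abs]
    exact hΦ
  have e5 : ∀ᶠ z in 𝓝 (p₀ : ℂ), DifferentiableAt ℂ u z :=
    huan.eventually_analyticAt.mono fun z hz => hz.differentiableAt
  have e6 : ∀ᶠ z in 𝓝 (p₀ : ℂ), z ≠ 0 :=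
    isOpen_ne.mem_nhds (by
      change (p₀ : ℂ) ≠ 0
      rw [Complex.ofReal_ne_zero]; exact hp0.ne')
  obtain ⟨r1, hr1, hball⟩ := Metric.eventually_nhds_iff_ball.1
    (e1.and (e2.and (e3.and (e4.and (e5.and (e6.and hright))))))
  -- the real points
  have hreal : ∀ᶠ p : ℝ in 𝓝[Set.Ico m⁻¹ 1] p₀, u (p : ℂ) = ((ur μ p : ℝ) : ℂ) := by
    have hc2 : Tendsto (fun p : ℝ => ((ur μ p : ℝ) : ℂ)) (𝓝[Set.Ico m⁻¹ 1] p₀) (𝓝 (u₀ : ℂ)) :=
      (Complex.continuous_ofReal.tendsto _).comp hcw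
    filter_upwards [hc2.eventually hleft, self_mem_nhdsWithin] with p h1 h2
    rw [Sf_ofReal, hS p h2] at h1
    rw [← h1]; push_cast; rw [inv_inv]
  obtain ⟨r2, hr2, hball2⟩ := Metric.eventually_nhds_iff_ball.1
    (eventually_nhdsWithin_iff.1 hreal)
  refine ⟨u, min r1 r2, a, ρ, lt_min hr1 hr2, ha0, haR, hρ0, hρ2, ?_, ?_, ?_⟩
  · intro z hz
    exact (hball z (Metric.ball_subset_ball (min_le_left _ _) hz)).2.2.2.2.1.differentiableWithinAt
  · intro z hz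
    obtain ⟨h1, h2, h3, h4, _, h6, h7⟩ := hball z (Metric.ball_subset_ball (min_le_left _ _) hz)
    refine ⟨?_, h1.le, h2, h3.le, h4.le⟩
    have h8 := one_sub_mul_Sf (μ := μ) hR h2
    have h9 : z * Sf μ (u z) = 1 := by
      have hne : Sf μ (u z) ≠ 0 := by
        intro h0; rw [h0, inv_zero] at h7; exact h6 h7.symm
      nth_rewrite 1 [← h7]
      exact inv_mul_cancel₀ hne
    have h10 : z * (1 - phi μ (u z)) = 1 - u z := by
      rw [← h8, mul_left_comm, h9, mul_one]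
    linear_combination h10
  · intro p hp hpr
    exact hball2 p (by rw [Metric.mem_ball, Real.dist_eq]; exact hpr.trans_le (min_le_right _ _)) hp

end annealed

end Pool.Agent.Lib.MP_002529_pr
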