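import Mathlib
import Pool.Agent.Lib.MP_002529_pr.Annealed

open MeasureTheory ProbabilityTheory Filter Topology
open scoped ComplexConjugate

namespace Pool.Agent.Lib.MP_002529_pr

section second

/-- One step of the recursion. -/
noncomputable def stp (z : ℂ) (X : (List ℕ → ℕ) → ℂ) : (List ℕ → ℕ) → ℂ := fun c =>
  1 - z + z * ∏ i ∈ Finset.range (c []), X (sub c i)

/-- The recursion, started at the constant `u`. -/
noncomputable def Zf (u z : ℂ) : ℕ → (List ℕ → ℕ) → ℂ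
  | 0 => fun _ => u
  | n + 1 => stp z (Zf u z n)

/-- Square-integrable variables with mean `u` and second moment at most `a`. -/
structure Good (μ : Measure ℕ) [IsProbabilityMeasure μ] (a : ℝ) (u : ℂ)
    (X : (List ℕ → ℕ) → ℂ) : Prop where
  meas : Measurable X
  int2 : Integrable (fun c => ‖X c‖ ^ 2) (gw μ)
  le : ∫ c, ‖X c‖ ^ 2 ∂(gw μ) ≤ a
  mean : ∫ c, X c ∂(gw μ) = u

variable {μ : Measure ℕ} [IsProbabilityMeasure μ] {R a : ℝ} {u z : ℂ}
  {X Y : (List ℕ → ℕ) → ℂ}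

lemma Good.int (hX : Good μ a u X) : Integrable X (gw μ) := by
  refine ((integrable_const (1 : ℝ)).add hX.int2).mono' hX.meas.aestronglyMeasurable
    (ae_of_all _ fun c => ?_)
  simp only [Pi.add_apply]
  nlinarith [norm_nonneg (X c), sq_nonneg (‖X c‖ - 1)]

lemma Good.norm_le (hX : Good μ a u X) : ∫ c, ‖X c‖ ∂(gw μ) ≤ (1 + a) / 2 := by
  have h1 : ∫ c, ‖X c‖ ∂(gw μ) ≤ ∫ c, (1 / 2 + ‖X c‖ ^ 2 / 2) ∂(gw μ) := by
    refine integral_mono hX.int.norm ((integrable_const _).add (hX.int2.div_const 2)) fun c => ?_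
    simp only
    nlinarith [sq_nonneg (‖X c‖ - 1)]
  rw [integral_add (integrable_const _) (hX.int2.div_const 2),
    integral_div 2 (fun c => ‖X c‖ ^ 2)] at h1
  simp only [integral_const, probReal_univ, smul_eq_mul, one_mul] at h1
  have := hX.le
  linarith

lemma Good.mul_int (hX : Good μ a u X) (hY : Good μ a u Y) :
    Integrable (fun c => X c * conj (Y c)) (gw μ) ∧
      ∫ c, ‖X c * conj (Y c)‖ ∂(gw μ) ≤ a := by
  have hm : Measurable (fun c => X c * conj (Y c)) :=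
    hX.meas.mul (Complex.continuous_conj.measurable.comp hY.meas)
  have hi : Integrable (fun c => ‖X c‖ ^ 2 / 2 + ‖Y c‖ ^ 2 / 2) (gw μ) :=
    (hX.int2.div_const 2).add (hY.int2.div_const 2)
  have hb : ∀ c, ‖X c * conj (Y c)‖ ≤ ‖X c‖ ^ 2 / 2 + ‖Y c‖ ^ 2 / 2 := fun c => by
    rw [norm_mul, RCLike.norm_conj]
    nlinarith [sq_nonneg (‖X c‖ - ‖Y c‖)]
  have hI : Integrable (fun c => X c * conj (Y c)) (gw μ) :=
    hi.mono' hm.aestronglyMeasurable (ae_of_all _ hb)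
  refine ⟨hI, (integral_mono hI.norm hi hb).trans ?_⟩
  rw [integral_add (hX.int2.div_const 2) (hY.int2.div_const 2), integral_div, integral_div]
  have := hX.le
  have := hY.le
  linarith

lemma measurable_stp (hX : Measurable X) : Measurable (stp z X) := by
  have h : Measurable (fun c : List ℕ → ℕ => ∏ i ∈ Finset.range (c []), X (sub c i)) :=
    (measurable_prodNat hX).comp ((measurable_pi_apply []).prodMk measurable_sub)
  exact measurable_const.add (measurable_const.mul h)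

/-- First moment of a step. -/
lemma stp_int (hR1 : 1 < R) (hR : Integrable (fun n : ℕ => R ^ n) μ) (ha0 : 0 ≤ a)
    (haR : a < R) (hX : Good μ a u X) :
    Integrable (fun c => ∏ i ∈ Finset.range (c []), X (sub c i)) (gw μ) ∧
      ∫ c, ∏ i ∈ Finset.range (c []), X (sub c i) ∂(gw μ) = phi μ u := by
  have h := gw_prod μ hX.meas hX.int ((1 + a) / 2)
    (int_pow0 hR (by rw [Real.norm_of_nonneg (by linarith)]; linarith)) hX.norm_le
  rw [hX.mean] at h
  exact h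

/-- Mixed second moment of the products. -/
lemma stp_int2 (hR : Integrable (fun n : ℕ => R ^ n) μ) (ha0 : 0 ≤ a)
    (haR : a < R) (hX : Good μ a u X) (hY : Good μ a u Y) :
    Integrable (fun c => (∏ i ∈ Finset.range (c []), X (sub c i)) *
      conj (∏ i ∈ Finset.range (c []), Y (sub c i))) (gw μ) ∧
      ∫ c, (∏ i ∈ Finset.range (c []), X (sub c i)) *
        conj (∏ i ∈ Finset.range (c []), Y (sub c i)) ∂(gw μ) =
        phi μ (∫ c, X c * conj (Y c) ∂(gw μ)) := by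
  have hm : Measurable (fun c => X c * conj (Y c)) :=
    hX.meas.mul (Complex.continuous_conj.measurable.comp hY.meas)
  have h := gw_prod μ hm (hX.mul_int hY).1 a
    (int_pow0 hR (by rw [Real.norm_of_nonneg ha0]; exact haR)) (hX.mul_int hY).2
  have e : ∀ c : List ℕ → ℕ, (∏ i ∈ Finset.range (c []), X (sub c i)) *
      conj (∏ i ∈ Finset.range (c []), Y (sub c i)) =
      ∏ i ∈ Finset.range (c []), (X (sub c i) * conj (Y (sub c i))) := fun c => by
    rw [map_prod, Finset.prod_mul_distrib]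
  simp_rw [e]
  exact h

theorem step_pair (hR1 : 1 < R) (hR : Integrable (fun n : ℕ => R ^ n) μ) (ha0 : 0 ≤ a)
    (haR : a < R) (hu : u = 1 - z + z * phi μ u) (hX : Good μ a u X) (hY : Good μ a u Y) :
    Integrable (fun c => stp z X c * conj (stp z Y c)) (gw μ) ∧
    ∫ c, stp z X c * conj (stp z Y c) ∂(gw μ) =
      ((‖u‖ ^ 2 - ‖u - 1 + z‖ ^ 2 : ℝ) : ℂ) +
        ((‖z‖ ^ 2 : ℝ) : ℂ) * phi μ (∫ c, X c * conj (Y c) ∂(gw μ)) := by
  obtain ⟨i1, e1⟩ := stp_int hR1 hR ha0 haR hX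
  obtain ⟨i2, e2⟩ := stp_int hR1 hR ha0 haR hY
  obtain ⟨i3, e3⟩ := stp_int2 hR ha0 haR hX hY
  have i2' : Integrable (fun c : List ℕ → ℕ => conj (∏ i ∈ Finset.range (c []), Y (sub c i)))
      (gw μ) := by
    refine i2.mono ?_ (ae_of_all _ fun c => by rw [RCLike.norm_conj])
    exact Complex.continuous_conj.comp_aestronglyMeasurable i2.aestronglyMeasurable
  have e2' : ∫ c : List ℕ → ℕ, conj (∏ i ∈ Finset.range (c []), Y (sub c i)) ∂(gw μ) =
      conj (phi μ u) := by rw [integral_conj, e2]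
  have e : ∀ c : List ℕ → ℕ, stp z X c * conj (stp z Y c) =
      (1 - z) * conj (1 - z) + ((1 - z) * conj z) * conj (∏ i ∈ Finset.range (c []), Y (sub c i)) +
      (z * conj (1 - z)) * (∏ i ∈ Finset.range (c []), X (sub c i)) +
      (z * conj z) * ((∏ i ∈ Finset.range (c []), X (sub c i)) *
        conj (∏ i ∈ Finset.range (c []), Y (sub c i))) := fun c => by
    simp only [stp, map_add, map_mul]
    ring
  have j1 : Integrable (fun c : List ℕ → ℕ => (1 - z) * conj (1 - z) +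
      ((1 - z) * conj z) * conj (∏ i ∈ Finset.range (c []), Y (sub c i))) (gw μ) :=
    (integrable_const (μ := gw μ) ((1 - z) * conj (1 - z))).add
      (i2'.const_mul ((1 - z) * conj z))
  have j2 : Integrable (fun c : List ℕ → ℕ => (1 - z) * conj (1 - z) +
      ((1 - z) * conj z) * conj (∏ i ∈ Finset.range (c []), Y (sub c i)) +
      (z * conj (1 - z)) * (∏ i ∈ Finset.range (c []), X (sub c i))) (gw μ) :=
    j1.add (i1.const_mul (z * conj (1 - z)))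
  have j3 : Integrable (fun c : List ℕ → ℕ => (1 - z) * conj (1 - z) +
      ((1 - z) * conj z) * conj (∏ i ∈ Finset.range (c []), Y (sub c i)) +
      (z * conj (1 - z)) * (∏ i ∈ Finset.range (c []), X (sub c i)) +
      (z * conj z) * ((∏ i ∈ Finset.range (c []), X (sub c i)) *
        conj (∏ i ∈ Finset.range (c []), Y (sub c i)))) (gw μ) :=
    j2.add (i3.const_mul (z * conj z))
  constructor
  · exact j3.congr (ae_of_all _ fun c => (e c).symm)
  · rw [integral_congr_ae (ae_of_all _ e), integral_add j2 (i3.const_mul _),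
      integral_add j1 (i1.const_mul _), integral_add (integrable_const _) (i2'.const_mul _),
      integral_const_mul, integral_const_mul, integral_const_mul, integral_const_mul, e1, e2', e3]
    simp only [integral_const, probReal_univ, one_smul]
    have hz : z * phi μ u = u - 1 + z := by linear_combination -hu
    have hz' : conj z * conj (phi μ u) = conj (u - 1 + z) := by rw [← map_mul, hz]
    have n1 : ((‖u‖ ^ 2 - ‖u - 1 + z‖ ^ 2 : ℝ) : ℂ) = u * conj u -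
        (u - 1 + z) * conj (u - 1 + z) := by
      rw [Complex.ofReal_sub, Complex.mul_conj, Complex.mul_conj, Complex.normSq_eq_norm_sq,
        Complex.normSq_eq_norm_sq]
    have n2 : ((‖z‖ ^ 2 : ℝ) : ℂ) = z * conj z := by
      rw [Complex.mul_conj, Complex.normSq_eq_norm_sq]
    rw [n1, n2]
    have hcu : conj u = conj (1 - z) + conj (u - 1 + z) := by
      rw [← map_add]; congr 1; ring
    rw [hcu]
    linear_combination (1 - z) * hz' + conj (1 - z) * hz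

lemma ofReal_normsq_integral (X : (List ℕ → ℕ) → ℂ) :
    ∫ c, X c * conj (X c) ∂(gw μ) = ((∫ c, ‖X c‖ ^ 2 ∂(gw μ) : ℝ) : ℂ) := by
  rw [← integral_complex_ofReal]
  refine integral_congr_ae (ae_of_all _ fun c => ?_)
  simp only [Complex.mul_conj, Complex.normSq_eq_norm_sq]

/-- Second moment of a step. -/
theorem step_second (hR1 : 1 < R) (hR : Integrable (fun n : ℕ => R ^ n) μ) (ha0 : 0 ≤ a)
    (haR : a < R) (hu : u = 1 - z + z * phi μ u) (hX : Good μ a u X) :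
    Integrable (fun c => ‖stp z X c‖ ^ 2) (gw μ) ∧
    ∫ c, ‖stp z X c‖ ^ 2 ∂(gw μ) =
      (‖u‖ ^ 2 - ‖u - 1 + z‖ ^ 2) + ‖z‖ ^ 2 * phi μ (∫ c, ‖X c‖ ^ 2 ∂(gw μ)) := by
  obtain ⟨h1, h2⟩ := step_pair hR1 hR ha0 haR hu hX hX
  constructor
  · refine h1.norm.congr (ae_of_all _ fun c => ?_)
    simp only [norm_mul, RCLike.norm_conj]; ring
  · rw [ofReal_normsq_integral, ofReal_normsq_integral, phi_ofReal] at h2
    exact_mod_cast h2

theorem step_good (hR1 : 1 < R) (hR : Integrable (fun n : ℕ => R ^ n) μ) (ha0 : 0 ≤ a)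
    (haR : a < R) (hu : u = 1 - z + z * phi μ u)
    (hΦ : ‖u‖ ^ 2 - ‖u - 1 + z‖ ^ 2 + ‖z‖ ^ 2 * phi μ a ≤ a) (hX : Good μ a u X) :
    Good μ a u (stp z X) := by
  obtain ⟨h1, h2⟩ := step_second hR1 hR ha0 haR hu hX
  refine ⟨measurable_stp hX.meas, h1, ?_, ?_⟩
  · rw [h2]
    have h3 : 0 ≤ ∫ c, ‖X c‖ ^ 2 ∂(gw μ) := integral_nonneg fun _ => by positivity
    have h4 := phi_le_of_le hR h3 hX.le haR
    have h5 := mul_le_mul_of_nonneg_left h4 (sq_nonneg ‖z‖)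
    linarith
  · obtain ⟨i1, e1⟩ := stp_int hR1 hR ha0 haR hX
    unfold stp
    rw [integral_add (integrable_const _) (i1.const_mul _), integral_const_mul, e1]
    simp only [integral_const, probReal_univ, one_smul]
    exact hu.symm

lemma good_const (hu2 : ‖u‖ ^ 2 ≤ a) : Good μ a u (fun _ => u) :=
  ⟨measurable_const, integrable_const _, by simpa using hu2, by simp⟩

theorem Zf_good (hR1 : 1 < R) (hR : Integrable (fun n : ℕ => R ^ n) μ) (ha0 : 0 ≤ a)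
    (haR : a < R) (hu : u = 1 - z + z * phi μ u) (hu2 : ‖u‖ ^ 2 ≤ a)
    (hΦ : ‖u‖ ^ 2 - ‖u - 1 + z‖ ^ 2 + ‖z‖ ^ 2 * phi μ a ≤ a) (n : ℕ) :
    Good μ a u (Zf u z n) := by
  induction n with
  | zero => exact good_const hu2
  | succ n ih => exact step_good hR1 hR ha0 haR hu hΦ ih

theorem Zf_cross (hR1 : 1 < R) (hR : Integrable (fun n : ℕ => R ^ n) μ) (ha0 : 0 ≤ a)
    (haR : a < R) (hu : u = 1 - z + z * phi μ u) (hu2 : ‖u‖ ^ 2 ≤ a)
    (hΦ : ‖u‖ ^ 2 - ‖u - 1 + z‖ ^ 2 + ‖z‖ ^ 2 * phi μ a ≤ a) (n : ℕ) :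
    ∫ c, Zf u z (n + 1) c * conj (Zf u z n c) ∂(gw μ) =
      ((∫ c, ‖Zf u z n c‖ ^ 2 ∂(gw μ) : ℝ) : ℂ) := by
  have hg := Zf_good hR1 hR ha0 haR hu hu2 hΦ
  induction n with
  | zero =>
    have e : ∀ c : List ℕ → ℕ, Zf u z (0 + 1) c * conj (Zf u z 0 c) = Zf u z 1 c * conj u :=
      fun c => rfl
    simp_rw [e]
    rw [integral_mul_const, (hg 1).mean]
    simp only [Zf, integral_const, probReal_univ, one_smul]
    rw [Complex.mul_conj, Complex.normSq_eq_norm_sq]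
  | succ n ih =>
    have h1 := (step_pair hR1 hR ha0 haR hu (hg (n + 1)) (hg n)).2
    have h2 := (step_second hR1 hR ha0 haR hu (hg n)).2
    rw [ih, phi_ofReal] at h1
    have h3 : ∫ c, ‖Zf u z (n + 1) c‖ ^ 2 ∂(gw μ) = (‖u‖ ^ 2 - ‖u - 1 + z‖ ^ 2) +
      ‖z‖ ^ 2 * phi μ (∫ c, ‖Zf u z n c‖ ^ 2 ∂(gw μ)) := h2
    rw [h3]
    refine h1.trans ?_
    push_cast
    ring

theorem Zf_diff (hR1 : 1 < R) (hR : Integrable (fun n : ℕ => R ^ n) μ) (ha0 : 0 ≤ a)
    (haR : a < R) (hu : u = 1 - z + z * phi μ u) (hu2 : ‖u‖ ^ 2 ≤ a)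
    (hΦ : ‖u‖ ^ 2 - ‖u - 1 + z‖ ^ 2 + ‖z‖ ^ 2 * phi μ a ≤ a) (n : ℕ) :
    Integrable (fun c => ‖Zf u z (n + 1) c - Zf u z n c‖ ^ 2) (gw μ) ∧
    ∫ c, ‖Zf u z (n + 1) c - Zf u z n c‖ ^ 2 ∂(gw μ) =
      ∫ c, ‖Zf u z (n + 1) c‖ ^ 2 ∂(gw μ) - ∫ c, ‖Zf u z n c‖ ^ 2 ∂(gw μ) := by
  have hg := Zf_good hR1 hR ha0 haR hu hu2 hΦ
  have hc := Zf_cross hR1 hR ha0 haR hu hu2 hΦ n
  have e : ∀ c : List ℕ → ℕ, ‖Zf u z (n + 1) c - Zf u z n c‖ ^ 2 =
      ‖Zf u z (n + 1) c‖ ^ 2 - 2 * (Zf u z (n + 1) c * conj (Zf u z n c)).re +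
        ‖Zf u z n c‖ ^ 2 := fun c => by
    rw [← Complex.normSq_eq_norm_sq, Complex.normSq_sub, Complex.normSq_eq_norm_sq,
      Complex.normSq_eq_norm_sq]
    ring
  have i1 : Integrable (fun c => (Zf u z (n + 1) c * conj (Zf u z n c)).re) (gw μ) :=
    ((hg (n + 1)).mul_int (hg n)).1.re
  have i2 : Integrable (fun c => ‖Zf u z (n + 1) c‖ ^ 2 -
      2 * (Zf u z (n + 1) c * conj (Zf u z n c)).re) (gw μ) :=
    (hg (n + 1)).int2.sub (i1.const_mul 2)
  simp_rw [e]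
  refine ⟨i2.add (hg n).int2, ?_⟩
  rw [integral_add i2 (hg n).int2, integral_sub (hg (n + 1)).int2 (i1.const_mul 2),
    integral_const_mul]
  have h1 : ∫ c, (Zf u z (n + 1) c * conj (Zf u z n c)).re ∂(gw μ) =
      ∫ c, ‖Zf u z n c‖ ^ 2 ∂(gw μ) := by
    have := integral_re (𝕜 := ℂ) (μ := gw μ) ((hg (n + 1)).mul_int (hg n)).1
    rw [hc] at this
    simpa using this
  rw [h1]; ring

/-- Geometric decay of the increments. -/
theorem Zf_decay (hR1 : 1 < R) (hR : Integrable (fun n : ℕ => R ^ n) μ) (ha0 : 0 ≤ a)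
    (haR : a < R) (hu : u = 1 - z + z * phi μ u) (hu2 : ‖u‖ ^ 2 ≤ a)
    (hΦ : ‖u‖ ^ 2 - ‖u - 1 + z‖ ^ 2 + ‖z‖ ^ 2 * phi μ a ≤ a) {ρ : ℝ} (hρ0 : 0 ≤ ρ)
    (hρ : ‖z‖ ^ 2 * kap μ a ≤ ρ) (n : ℕ) :
    ∫ c, ‖Zf u z (n + 1) c - Zf u z n c‖ ^ 2 ∂(gw μ) ≤ a * ρ ^ n := by
  have hg := Zf_good hR1 hR ha0 haR hu hu2 hΦ
  have hd := Zf_diff hR1 hR ha0 haR hu hu2 hΦ
  have hb : ∀ n, 0 ≤ ∫ c, ‖Zf u z n c‖ ^ 2 ∂(gw μ) := fun n =>
    integral_nonneg fun _ => by positivity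
  have hstep : ∀ n, ∫ c, ‖Zf u z (n + 1) c‖ ^ 2 ∂(gw μ) = (‖u‖ ^ 2 - ‖u - 1 + z‖ ^ 2) +
      ‖z‖ ^ 2 * phi μ (∫ c, ‖Zf u z n c‖ ^ 2 ∂(gw μ)) := fun n =>
    (step_second hR1 hR ha0 haR hu (hg n)).2
  have hmono : ∀ n, ∫ c, ‖Zf u z n c‖ ^ 2 ∂(gw μ) ≤ ∫ c, ‖Zf u z (n + 1) c‖ ^ 2 ∂(gw μ) :=
    fun n => by
      have h := (hd n).2
      have : 0 ≤ ∫ c, ‖Zf u z (n + 1) c - Zf u z n c‖ ^ 2 ∂(gw μ) :=
        integral_nonneg fun _ => by positivity
      linarith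
  rw [(hd n).2]
  induction n with
  | zero =>
    have h1 := (hg (0 + 1)).le
    have h2 := hb 0
    simp only [pow_zero, mul_one]
    linarith
  | succ n ih =>
    rw [hstep (n + 1)]
    nth_rewrite 2 [hstep n]
    have h1 := phi_sub_le hR1 hR (hb n) (hmono n) (hg (n + 1)).le haR
    have h2 := mul_le_mul_of_nonneg_left h1 (sq_nonneg ‖z‖)
    have h0 : 0 ≤ ∫ c, ‖Zf u z (n + 1) c‖ ^ 2 ∂(gw μ) - ∫ c, ‖Zf u z n c‖ ^ 2 ∂(gw μ) := by
      have := hmono n; linarith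
    have h3 := mul_le_mul_of_nonneg_left hρ h0
    have h4 := mul_le_mul_of_nonneg_right ih hρ0
    rw [pow_succ ρ n]
    nlinarith

end second

end Pool.Agent.Lib.MP_002529_pr
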