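import Mathlib
import Pool.Agent.Lib.MP_002529_pr.Second
import Pool.Agent.Lib.MP_002529_pr.Analytic

open MeasureTheory ProbabilityTheory Filter Topology
open scoped unitInterval ENNReal

namespace Pool.Agent.Lib.MP_002529_pr

section compare

variable {μ : Measure ℕ} [IsProbabilityMeasure μ] {R : ℝ}

/-- The real version of the recursion. -/
noncomputable def zr (u p : ℝ) : ℕ → (List ℕ → ℕ) → ℝ
  | 0 => fun _ => u
  | n + 1 => fun c => 1 - p + p * ∏ i ∈ Finset.range (c []), zr u p n (sub c i)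

lemma Zf_ofReal (u p : ℝ) (n : ℕ) (c : List ℕ → ℕ) :
    Zf (u : ℂ) (p : ℂ) n c = ((zr u p n c : ℝ) : ℂ) := by
  induction n generalizing c with
  | zero => rfl
  | succ n ih => simp only [Zf, stp, zr, ih]; push_cast; ring

lemma G_eq_zr (p : ℝ) (n : ℕ) (c : List ℕ → ℕ) : 1 - p * G p n c = zr (1 - p) p n c := by
  induction n generalizing c with
  | zero => simp [G, zr]
  | succ n ih =>
    simp only [G, zr, ih]; ring

lemma zr_mem {u p : ℝ} (hp0 : 0 ≤ p) (hp1 : p ≤ 1) (hu0 : 0 ≤ u) (hu1 : u ≤ 1) (n : ℕ)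
    (c : List ℕ → ℕ) : 0 ≤ zr u p n c ∧ zr u p n c ≤ 1 := by
  induction n generalizing c with
  | zero => exact ⟨hu0, hu1⟩
  | succ n ih =>
    have h1 : 0 ≤ ∏ i ∈ Finset.range (c []), zr u p n (sub c i) :=
      Finset.prod_nonneg fun i _ => (ih _).1
    have h2 : ∏ i ∈ Finset.range (c []), zr u p n (sub c i) ≤ 1 :=
      Finset.prod_le_one (fun i _ => (ih _).1) fun i _ => (ih _).2
    simp only [zr]
    constructor
    · have := mul_nonneg hp0 h1; linarith
    · have := mul_le_mul_of_nonneg_left h2 hp0; linarith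

lemma zr_mono {u v p : ℝ} (hp0 : 0 ≤ p) (hp1 : p ≤ 1) (hu0 : 0 ≤ u) (huv : u ≤ v) (hv1 : v ≤ 1)
    (n : ℕ) (c : List ℕ → ℕ) : zr u p n c ≤ zr v p n c := by
  induction n generalizing c with
  | zero => exact huv
  | succ n ih =>
    have h1 : ∏ i ∈ Finset.range (c []), zr u p n (sub c i) ≤
        ∏ i ∈ Finset.range (c []), zr v p n (sub c i) :=
      Finset.prod_le_prod (fun i _ => (zr_mem hp0 hp1 hu0 (huv.trans hv1) n _).1) fun i _ => ih _
    simp only [zr]
    have := mul_le_mul_of_nonneg_left h1 hp0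
    linarith

lemma measurable_zr (u p : ℝ) (n : ℕ) : Measurable (zr u p n) := by
  induction n with
  | zero => exact measurable_const
  | succ n ih =>
    have h : Measurable (fun c : List ℕ → ℕ => ∏ i ∈ Finset.range (c []), zr u p n (sub c i)) :=
      (measurable_prodNat ih).comp ((measurable_pi_apply []).prodMk measurable_sub)
    exact measurable_const.add (measurable_const.mul h)

lemma integrable_zr {u p : ℝ} (hp0 : 0 ≤ p) (hp1 : p ≤ 1) (hu0 : 0 ≤ u) (hu1 : u ≤ 1) (n : ℕ) :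
    Integrable (zr u p n) (gw μ) :=
  Integrable.of_bound (C := 1) (measurable_zr u p n).aestronglyMeasurable
    (ae_of_all _ fun c => by
      have := zr_mem hp0 hp1 hu0 hu1 n c
      rw [Real.norm_of_nonneg this.1]; exact this.2)

/-- The mean of the real recursion. -/
lemma integral_zr {u p : ℝ} (hp0 : 0 ≤ p) (hp1 : p ≤ 1) (hu0 : 0 ≤ u) (hu1 : u ≤ 1) (n : ℕ) :
    ∫ c, zr u p (n + 1) c ∂(gw μ) = 1 - p + p * phi μ (∫ c, zr u p n c ∂(gw μ)) := by
  have h := gw_prod μ (measurable_zr u p n) (integrable_zr hp0 hp1 hu0 hu1 n) 1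
    (by simp) (by
      refine (integral_mono (integrable_zr hp0 hp1 hu0 hu1 n).norm (integrable_const (1 : ℝ))
        fun c => ?_).trans (by simp)
      have := zr_mem hp0 hp1 hu0 hu1 n c
      simp only
      rw [Real.norm_of_nonneg this.1]; exact this.2)
  simp only [zr]
  rw [integral_add (integrable_const _) (h.1.const_mul _), integral_const_mul, h.2]
  simp [phi]

lemma integral_zr_yr {p : ℝ} (hp0 : 0 ≤ p) (hp1 : p ≤ 1) (n : ℕ) :
    ∫ c, zr (1 - p) p n c ∂(gw μ) = yr μ p n := by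
  induction n with
  | zero => simp [zr, yr]
  | succ n ih => rw [integral_zr hp0 hp1 (by linarith) (by linarith), ih]; rfl

lemma integral_zr_ur (hR1 : 1 < R) (hR : Integrable (fun n : ℕ => R ^ n) μ) {p : ℝ}
    (hp0 : 0 ≤ p) (hp1 : p ≤ 1) (n : ℕ) :
    ∫ c, zr (ur μ p) p n c ∂(gw μ) = ur μ p := by
  have hu := ur_mem (μ := μ) hp0 hp1
  induction n with
  | zero => simp [zr]
  | succ n ih =>
    rw [integral_zr hp0 hp1 (by linarith) hu.2, ih]
    exact (ur_eq hR1 hR hp0 hp1).symm

/-- At a fixed real `p`, the limit of the recursion is the quenched survival function. -/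
theorem limit_eq (hR1 : 1 < R) (hR : Integrable (fun n : ℕ => R ^ n) μ) (p : I) :
    ∀ᵐ c ∂(gw μ), ∀ L : ℝ, Tendsto (fun n => zr (ur μ p) p n c) atTop (𝓝 L) →
      L = 1 - p * surv c p := by
  have hp0 := p.2.1
  have hp1 := p.2.2
  have hu := ur_mem (μ := μ) hp0 hp1
  have hle : ∀ n c, zr (1 - p) p n c ≤ zr (ur μ p) p n c := fun n c =>
    zr_mono hp0 hp1 (by linarith) hu.1 hu.2 n c
  have hE : ∀ n, ∫⁻ c, ENNReal.ofReal (zr (ur μ p) p n c - zr (1 - p) p n c) ∂(gw μ) =
      ENNReal.ofReal (ur μ p - yr μ p n) := fun n => by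
    have i1 : Integrable (zr (ur μ p) p n) (gw μ) :=
      integrable_zr hp0 hp1 (by linarith) hu.2 n
    have i2 : Integrable (zr (1 - (p : ℝ)) p n) (gw μ) :=
      integrable_zr hp0 hp1 (by linarith) (by linarith) n
    have h := ofReal_integral_eq_lintegral_ofReal (i1.sub i2)
      (ae_of_all _ fun c => by
        simp only [Pi.sub_apply, Pi.zero_apply, sub_nonneg]; exact hle n c)
    rw [integral_sub' i1 i2, integral_zr_ur hR1 hR hp0 hp1, integral_zr_yr hp0 hp1] at h
    exact h.symm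
  have hfatou : ∫⁻ c, liminf (fun n : ℕ => ENNReal.ofReal (zr (ur μ p) p n c -
      zr (1 - p) p n c)) atTop ∂(gw μ) ≤ liminf (fun n : ℕ =>
      ∫⁻ c, ENNReal.ofReal (zr (ur μ p) p n c - zr (1 - p) p n c) ∂(gw μ)) atTop :=
    lintegral_liminf_le fun n =>
      ((measurable_zr _ _ n).sub (measurable_zr _ _ n)).ennreal_ofReal
  have hlim : Tendsto (fun n => ENNReal.ofReal (ur μ p - yr μ p n)) atTop (𝓝 0) := by
    have h1 := (tendsto_const_nhds (x := ur μ p)).sub (tendsto_yr (μ := μ) hR1 hR hp0 hp1)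
    have h2 := ENNReal.tendsto_ofReal h1
    simpa using h2
  simp only [hE] at hfatou
  rw [hlim.liminf_eq] at hfatou
  have hmeas : Measurable (fun c => liminf (fun n =>
      ENNReal.ofReal (zr (ur μ p) p n c - zr (1 - (p : ℝ)) p n c)) atTop) :=
    Measurable.liminf fun n =>
      ((measurable_zr _ _ n).sub (measurable_zr _ _ n)).ennreal_ofReal
  have hae := (lintegral_eq_zero_iff hmeas).1 (le_antisymm hfatou bot_le)
  filter_upwards [hae] with c hc L hL
  have h1 : Tendsto (fun n => zr (1 - p) p n c) atTop (𝓝 (1 - p * surv c p)) := by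
    have := ((tendsto_G p c).const_mul (p : ℝ)).const_sub 1
    refine this.congr fun n => ?_
    rw [G_eq_zr]
  have h2 : Tendsto (fun n => ENNReal.ofReal (zr (ur μ p) p n c - zr (1 - p) p n c)) atTop
      (𝓝 (ENNReal.ofReal (L - (1 - p * surv c p)))) := ENNReal.tendsto_ofReal (hL.sub h1)
  have h3 : ENNReal.ofReal (L - (1 - p * surv c p)) = 0 := by
    rw [← h2.liminf_eq]; exact hc
  have h4 := ENNReal.ofReal_eq_zero.1 h3
  have h5 : 1 - p * surv c p ≤ L := le_of_tendsto_of_tendsto' h1 hL fun n => hle n c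
  linarith

end compare

end Pool.Agent.Lib.MP_002529_pr
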