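import Mathlib
import Pool.Agent.Lib.MP_002529_pr.Compare

open MeasureTheory ProbabilityTheory Filter Topology
open scoped unitInterval ENNReal

namespace Pool.Agent.Lib.MP_002529_pr

/-! ### Extension from a dense set -/

lemma antitone_eq_of_dense {k φ : ℝ → ℝ} {α β : ℝ}
    (hk : ∀ x ∈ Set.Ioo α β, ∀ y ∈ Set.Ioo α β, x ≤ y → k y ≤ k x)
    (hφ : ∀ x ∈ Set.Ioo α β, ContinuousAt φ x)
    (hq : ∀ q : ℚ, (q : ℝ) ∈ Set.Ioo α β → k q = φ q) :
    ∀ x ∈ Set.Ioo α β, k x = φ x := by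
  intro x hx
  apply le_antisymm
  · refine le_of_forall_pos_le_add fun ε hε => ?_
    obtain ⟨δ, hδ, hball⟩ := Metric.continuousAt_iff.1 (hφ x hx) ε hε
    obtain ⟨q, hq1, hq2⟩ := exists_rat_btwn (max_lt hx.1 (sub_lt_self x hδ))
    have hqm : (q : ℝ) ∈ Set.Ioo α β := ⟨(le_max_left _ _).trans_lt hq1, hq2.trans hx.2⟩
    have h1 := hk q hqm x hx hq2.le
    have h2 := hball (x := (q : ℝ)) (by
      rw [Real.dist_eq, abs_sub_comm, abs_of_pos (by linarith)]
      have := (le_max_right α (x - δ)).trans_lt hq1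
      linarith)
    rw [Real.dist_eq] at h2
    have h3 := (abs_lt.1 h2).2
    rw [hq q hqm] at h1
    linarith
  · refine le_of_forall_pos_le_add fun ε hε => ?_
    obtain ⟨δ, hδ, hball⟩ := Metric.continuousAt_iff.1 (hφ x hx) ε hε
    obtain ⟨q, hq1, hq2⟩ := exists_rat_btwn (lt_min hx.2 (lt_add_of_pos_right x hδ))
    have hqm : (q : ℝ) ∈ Set.Ioo α β := ⟨hx.1.trans hq1, hq2.trans_le (min_le_left _ _)⟩
    have h1 := hk x hx q hqm hq1.le
    have h2 := hball (x := (q : ℝ)) (by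
      rw [Real.dist_eq, abs_of_pos (by linarith)]
      have := hq2.trans_le (min_le_right β (x + δ))
      linarith)
    rw [Real.dist_eq] at h2
    have h3 := (abs_lt.1 h2).1
    rw [hq q hqm] at h1
    linarith

section loc

variable {μ : Measure ℕ} [IsProbabilityMeasure μ] {R : ℝ}

/-- The survival function on the reals. -/
noncomputable def survR (c : List ℕ → ℕ) (x : ℝ) : ℝ :=
  surv c (Set.projIcc 0 1 zero_le_one x)

lemma survR_coe (c : List ℕ → ℕ) (p : I) : survR c p = surv c p := by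
  unfold survR; rw [Set.projIcc_val]

lemma survR_of_mem (c : List ℕ → ℕ) {x : ℝ} (hx : x ∈ Set.Icc (0 : ℝ) 1) :
    survR c x = surv c ⟨x, hx⟩ := by
  unfold survR; rw [Set.projIcc_of_mem _ hx]

lemma surv_nonneg (c : List ℕ → ℕ) (p : I) : 0 ≤ surv c p := measureReal_nonneg

lemma survR_mono (c : List ℕ → ℕ) {x y : ℝ} (hxy : x ≤ y) : survR c x ≤ survR c y :=
  surv_mono c (Set.monotone_projIcc _ hxy)

lemma differentiableOn_Zf {u : ℂ → ℂ} {s : Set ℂ} (hu : DifferentiableOn ℂ u s) (n : ℕ)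
    (c : List ℕ → ℕ) : DifferentiableOn ℂ (fun z => Zf (u z) z n c) s := by
  induction n generalizing c with
  | zero => exact hu
  | succ n ih =>
    simp only [Zf, stp]
    refine ((differentiableOn_const _).sub differentiableOn_id).add (differentiableOn_id.mul ?_)
    exact DifferentiableOn.fun_finsetProd fun i _ => ih _

lemma Zf_telescope (u z : ℂ) (n : ℕ) (c : List ℕ → ℕ) :
    Zf u z n c = u + ∑ k ∈ Finset.range n, (Zf u z (k + 1) c - Zf u z k c) := by
  rw [Finset.sum_range_sub (fun k => Zf u z k c)]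
  simp [Zf]

/-- The local statement. -/
theorem local_analytic (hR1 : 1 < R) (hR : Integrable (fun n : ℕ => R ^ n) μ)
    (hm : 1 < ∫ n : ℕ, (n : ℝ) ∂μ) {p₀ : ℝ}
    (hp₀ : p₀ ∈ Set.Ico (∫ n : ℕ, (n : ℝ) ∂μ)⁻¹ 1) :
    ∃ δ : ℝ, 0 < δ ∧ ∀ᵐ c ∂(gw μ), ∃ g : ℝ → ℝ,
      (∀ x ∈ Metric.ball p₀ δ, AnalyticAt ℝ g x) ∧
      ∀ x ∈ Metric.ball p₀ δ, x ∈ Set.Ico (∫ n : ℕ, (n : ℝ) ∂μ)⁻¹ 1 → survR c x = g x := by
  obtain ⟨u, r, a, ρ, hr, ha0, haR, hρ0, hρ1, hud, hz, hreal⟩ := local_data hR1 hR hm hp₀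
  set m := ∫ n : ℕ, (n : ℝ) ∂μ with hmdef
  have hpos : ∀ p ∈ Set.Ico m⁻¹ 1, 0 < p := fun p hp => lt_of_lt_of_le (by positivity) hp.1
  have hp00 := hpos _ hp₀
  set δ := min (r / 4) p₀ with hδ
  have hδ0 : 0 < δ := lt_min (by linarith) hp00
  refine ⟨δ, hδ0, ?_⟩
  -- the increments
  have hsum : ∀ᵐ c ∂(gw μ), ∃ M : ℕ → ℝ, Summable M ∧
      ∀ n, ∀ w ∈ Metric.ball (p₀ : ℂ) (r / 2 / 2),
        ‖Zf (u w) w (n + 1) c - Zf (u w) w n c‖ ≤ M n := by
    refine ae_summable (f := fun n c z => Zf (u z) z (n + 1) c - Zf (u z) z n c)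
      (r := r / 2) (r' := r) (C := (1 + a) / 2) (ρ := Real.sqrt ρ) (by linarith) (by linarith)
      (Real.sqrt_nonneg _) ?_ (fun n c => (differentiableOn_Zf hud _ c).sub
        (differentiableOn_Zf hud _ c)) ?_ ?_
    · rw [Real.sqrt_lt' one_pos]; simpa using hρ1
    · intro n z hzb
      obtain ⟨h1, h2, h3, h4, h5⟩ := hz z hzb
      have hg := Zf_good hR1 hR ha0.le haR h1 h2 h5
      exact (hg (n + 1)).meas.sub (hg n).meas
    · intro n z hzb
      obtain ⟨h1, h2, h3, h4, h5⟩ := hz z hzb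
      have hg := Zf_good hR1 hR ha0.le haR h1 h2 h5
      have hi : Integrable (fun c => Zf (u z) z (n + 1) c - Zf (u z) z n c) (gw μ) :=
        (hg (n + 1)).int.sub (hg n).int
      have hi2 := (Zf_diff hR1 hR ha0.le haR h1 h2 h5 n).1
      have hdec := Zf_decay hR1 hR ha0.le haR h1 h2 h5 hρ0.le h4 n
      rw [← ofReal_integral_norm_eq_lintegral_enorm hi]
      refine ENNReal.ofReal_le_ofReal ?_
      set s := Real.sqrt ρ ^ n with hs
      have hs0 : 0 < s := pow_pos (Real.sqrt_pos.2 hρ0) n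
      have hss : s ^ 2 = ρ ^ n := by
        rw [hs, ← pow_mul, mul_comm, pow_mul, Real.sq_sqrt hρ0.le]
      have hle : ∀ c, ‖Zf (u z) z (n + 1) c - Zf (u z) z n c‖ ≤
          s / 2 + ‖Zf (u z) z (n + 1) c - Zf (u z) z n c‖ ^ 2 / (2 * s) := fun c => by
        set x := ‖Zf (u z) z (n + 1) c - Zf (u z) z n c‖
        have : s / 2 + x ^ 2 / (2 * s) - x = (s - x) ^ 2 / (2 * s) := by
          field_simp; ring
        have h0 : 0 ≤ (s - x) ^ 2 / (2 * s) := by positivity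
        linarith
      have hI := integral_mono hi.norm ((integrable_const (s / 2)).add (hi2.div_const (2 * s))) hle
      have hI2 : ∫ c, (s / 2 + ‖Zf (u z) z (n + 1) c - Zf (u z) z n c‖ ^ 2 / (2 * s)) ∂(gw μ) =
          s / 2 + (∫ c, ‖Zf (u z) z (n + 1) c - Zf (u z) z n c‖ ^ 2 ∂(gw μ)) / (2 * s) := by
        rw [integral_add (integrable_const _) (hi2.div_const _), integral_div (2 * s)
          (fun c => ‖Zf (u z) z (n + 1) c - Zf (u z) z n c‖ ^ 2)]
        simp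
      refine hI.trans ?_
      simp only [Pi.add_apply]
      rw [hI2]
      have h6 : (∫ c, ‖Zf (u z) z (n + 1) c - Zf (u z) z n c‖ ^ 2 ∂(gw μ)) / (2 * s) ≤
          a * s ^ 2 / (2 * s) := by
        rw [hss]
        exact div_le_div_of_nonneg_right hdec (by positivity)
      have h7 : a * s ^ 2 / (2 * s) = a * s / 2 := by field_simp
      rw [h7] at h6
      linarith
  -- the limits at the rational points and at the critical point
  have hpt : ∀ p : I, (p : ℝ) ∈ Set.Ico m⁻¹ 1 → (p : ℝ) ∈ Metric.ball p₀ δ →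
      ∀ᵐ c ∂(gw μ), ∀ L : ℂ, Tendsto (fun n => Zf (u p) p n c) atTop (𝓝 L) →
        L.re = 1 - p * surv c p := by
    intro p hp hpb
    have hup : u p = ur μ p := hreal p hp (by
      rw [Metric.mem_ball, Real.dist_eq] at hpb
      have := min_le_left (r / 4) p₀
      linarith)
    filter_upwards [limit_eq hR1 hR p] with c hc L hL
    apply hc
    rw [hup] at hL
    simp_rw [Zf_ofReal] at hL
    refine ((Complex.continuous_re.tendsto L).comp hL).congr fun n => ?_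
    simp only [Function.comp_apply, Complex.ofReal_re]
  have hcount : ∀ᵐ c ∂(gw μ), ∀ q : ℚ, ∀ hq : (q : ℝ) ∈ Set.Icc (0 : ℝ) 1,
      (q : ℝ) ∈ Set.Ico m⁻¹ 1 → (q : ℝ) ∈ Metric.ball p₀ δ →
      ∀ L : ℂ, Tendsto (fun n => Zf (u (q : ℝ)) (q : ℝ) n c) atTop (𝓝 L) →
        L.re = 1 - (q : ℝ) * survR c q := by
    rw [ae_all_iff]; intro q
    by_cases hq : (q : ℝ) ∈ Set.Icc (0 : ℝ) 1 ∧ (q : ℝ) ∈ Set.Ico m⁻¹ 1 ∧
        (q : ℝ) ∈ Metric.ball p₀ δ
    · filter_upwards [hpt ⟨q, hq.1⟩ hq.2.1 hq.2.2] with c hc h1 _ _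
      rw [survR_of_mem c h1]
      exact hc
    · refine ae_of_all _ fun c h1 h2 h3 => absurd ⟨h1, h2, h3⟩ hq
  have hmI : m⁻¹ ∈ Set.Icc (0 : ℝ) 1 := ⟨by positivity, inv_le_one_of_one_le₀ hm.le⟩
  have hmIco : m⁻¹ ∈ Set.Ico m⁻¹ 1 := ⟨le_rfl, inv_lt_one_of_one_lt₀ hm⟩
  have hcrit : ∀ᵐ c ∂(gw μ), m⁻¹ ∈ Metric.ball p₀ δ →
      ∀ L : ℂ, Tendsto (fun n => Zf (u (m⁻¹ : ℝ)) (m⁻¹ : ℝ) n c) atTop (𝓝 L) →
        L.re = 1 - m⁻¹ * survR c m⁻¹ := by
    by_cases hb : m⁻¹ ∈ Metric.ball p₀ δ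
    · filter_upwards [hpt ⟨m⁻¹, hmI⟩ hmIco hb] with c hc _
      rw [survR_of_mem c hmI]
      exact hc
    · exact ae_of_all _ fun c h => absurd h hb
  filter_upwards [hsum, hcount, hcrit] with c ⟨M, hM, hMb⟩ hc1 hc2
  -- the limit function
  set F : ℂ → ℂ := fun z => u z + ∑' k, (Zf (u z) z (k + 1) c - Zf (u z) z k c) with hF
  have hb4 : Metric.ball (p₀ : ℂ) (r / 2 / 2) ⊆ Metric.ball (p₀ : ℂ) r :=
    Metric.ball_subset_ball (by linarith)
  have hFd : DifferentiableOn ℂ F (Metric.ball (p₀ : ℂ) (r / 2 / 2)) := by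
    refine (hud.mono hb4).add (Complex.differentiableOn_tsum_of_summable_norm hM (fun k =>
      ((differentiableOn_Zf hud _ c).sub (differentiableOn_Zf hud _ c)).mono hb4)
      Metric.isOpen_ball fun k w hw => hMb k w hw)
  have hFt : ∀ z ∈ Metric.ball (p₀ : ℂ) (r / 2 / 2),
      Tendsto (fun n => Zf (u z) z n c) atTop (𝓝 (F z)) := by
    intro z hz
    have hs : Summable fun k => (Zf (u z) z (k + 1) c - Zf (u z) z k c) :=
      Summable.of_norm_bounded hM fun k => hMb k z hz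
    have := hs.hasSum.tendsto_sum_nat.const_add (u z)
    refine this.congr fun n => ?_
    rw [← Zf_telescope]
  have hmemC : ∀ x ∈ Metric.ball p₀ δ, (x : ℂ) ∈ Metric.ball (p₀ : ℂ) (r / 2 / 2) := by
    intro x hx
    rw [Metric.mem_ball] at hx ⊢
    rw [Complex.dist_eq, ← Complex.ofReal_sub, Complex.norm_real]
    rw [Real.dist_eq] at hx
    have := min_le_left (r / 4) p₀
    rw [Real.norm_eq_abs]
    linarith
  have hxpos : ∀ x ∈ Metric.ball p₀ δ, 0 < x := by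
    intro x hx
    rw [Metric.mem_ball, Real.dist_eq] at hx
    have := min_le_right (r / 4) p₀
    have := (abs_lt.1 hx).1
    linarith
  have hFan : ∀ x ∈ Metric.ball p₀ δ, AnalyticAt ℝ (fun x : ℝ => (F x).re) x := by
    intro x hx
    have h1 : AnalyticAt ℂ F (x : ℂ) :=
      hFd.analyticAt (Metric.isOpen_ball.mem_nhds (hmemC x hx))
    exact (Complex.reCLM.analyticAt _).comp
      ((h1.restrictScalars (𝕜 := ℝ)).comp (Complex.ofRealCLM.analyticAt x))
  -- equality on the interval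
  have hkey : ∀ x ∈ Metric.ball p₀ δ, x ∈ Set.Ico m⁻¹ 1 → 1 - x * survR c x = (F x).re := by
    intro x hx hx1
    rcases eq_or_lt_of_le hx1.1 with h | h
    · subst h
      exact (hc2 hx _ (hFt _ (hmemC _ hx))).symm
    · have hxb := hx
      rw [Real.ball_eq_Ioo] at hxb
      have hαβ : x ∈ Set.Ioo (max m⁻¹ (p₀ - δ)) (min 1 (p₀ + δ)) :=
        ⟨max_lt h hxb.1, lt_min hx1.2 hxb.2⟩
      have hsub : ∀ y ∈ Set.Ioo (max m⁻¹ (p₀ - δ)) (min 1 (p₀ + δ)),
          y ∈ Metric.ball p₀ δ ∧ y ∈ Set.Ico m⁻¹ 1 := by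
        intro y hy
        rw [Real.ball_eq_Ioo]
        exact ⟨⟨(le_max_right _ _).trans_lt hy.1, hy.2.trans_le (min_le_right _ _)⟩,
          ((le_max_left _ _).trans_lt hy.1).le, hy.2.trans_le (min_le_left _ _)⟩
      refine antitone_eq_of_dense (k := fun x => 1 - x * survR c x) (φ := fun x => (F x).re)
        ?_ ?_ ?_ x hαβ
      · intro y hy z hz hyz
        have h1 := survR_mono c hyz
        have h2 : 0 ≤ survR c y := surv_nonneg c _
        have h3 := hxpos y (hsub y hy).1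
        have := mul_le_mul hyz h1 h2 (by linarith)
        linarith
      · intro y hy
        exact (hFan y (hsub y hy).1).continuousAt
      · intro q hq
        obtain ⟨h1, h2⟩ := hsub q hq
        exact (hc1 q ⟨(hpos _ h2).le, h2.2.le⟩ h2 h1 _ (hFt _ (hmemC _ h1))).symm
  refine ⟨fun x => (1 - (F x).re) / x, fun x hx => ?_, fun x hx hx1 => ?_⟩
  · exact (analyticAt_const.sub (hFan x hx)).div analyticAt_id (hxpos x hx).ne'
  · have h1 := hkey x hx hx1
    have h2 := (hxpos x hx).ne'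
    simp only
    rw [← h1]
    field_simp
    ring

end loc

end Pool.Agent.Lib.MP_002529_pr
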